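import Pool.Agent.LibOM74.Bounding

/-!
Analytic spaces that are not σ-compact: they contain a family of points indexed by all functions
`ℕ → ℕ` that meets every compact set in a bounded family (after Hurewicz).
-/

open Set Topology Filter
open scoped Cardinal

namespace Pool.Agent.LibOM74

open PiNat

section Step

variable {M : Type} [MetricSpace M] (g : (ℕ → ℕ) → M)

/-- The points all of whose neighbourhoods have a large image. -/
def Large : Set (ℕ → ℕ) :=
  {x | ∀ n, ¬ ∃ T : Set M, IsSigmaCompact T ∧ g '' cylinder x n ⊆ T}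

theorem not_large_image (x : ℕ → ℕ) (n : ℕ) (hx : x ∈ Large g) :
    ¬ ∃ T : Set M, IsSigmaCompact T ∧ g '' (cylinder x n ∩ Large g) ⊆ T := by
  rintro ⟨T, hT, hsub⟩
  apply hx n
  -- the cylinders with a small image
  have hbas : ∀ y : ((Large g)ᶜ : Set (ℕ → ℕ)), ∃ m, ∃ T : Set M, IsSigmaCompact T ∧
      g '' cylinder (y : ℕ → ℕ) m ⊆ T := by
    rintro ⟨y, hy⟩
    simpa [Large] using hy
  choose m T' hT' hm using hbas
  have hL : IsLindelof (univ : Set ((Large g)ᶜ : Set (ℕ → ℕ))) :=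
    HereditarilyLindelofSpace.isLindelof _
  obtain ⟨t, ht, htc⟩ := hL.elim_nhds_subcover (fun y => Subtype.val ⁻¹' cylinder (y : ℕ → ℕ) (m y))
    (fun y _ => ((isOpen_cylinder _ _ _).preimage continuous_subtype_val).mem_nhds
      (self_mem_cylinder _ _))
  refine ⟨T ∪ ⋃ y ∈ t, T' y, ?_, ?_⟩
  · have h1 : IsSigmaCompact (⋃ y ∈ t, T' y) :=
      isSigmaCompact_biUnion ht fun y _ => hT' y
    rw [union_eq_iUnion]
    refine isSigmaCompact_iUnion _ fun b => ?_
    cases b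
    · exact h1
    · exact hT
  · rintro _ ⟨y, hy, rfl⟩
    by_cases hyL : y ∈ Large g
    · exact Or.inl (hsub ⟨y, ⟨hy, hyL⟩, rfl⟩)
    · have h1 : (⟨y, hyL⟩ : ((Large g)ᶜ : Set (ℕ → ℕ))) ∈
          ⋃ y ∈ t, Subtype.val ⁻¹' cylinder (y : ℕ → ℕ) (m y) := htc.2 (mem_univ _)
      obtain ⟨z, hz, hyz⟩ := mem_iUnion₂.1 h1
      exact Or.inr (mem_iUnion₂.2 ⟨z, hz, hm z ⟨y, hyz, rfl⟩⟩)

/-- The step of the construction. -/
theorem exists_step (hg : Continuous g) (p : ℕ → ℕ) (m : ℕ) (hp : p ∈ Large g) :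
    ∃ (q : ℕ → ℕ → ℕ) (l : ℕ → ℕ), (∀ n, q n ∈ Large g ∧ q n ∈ cylinder p m ∧ m < l n) ∧
      ∀ C : Set M, IsCompact C → {n | ((g '' cylinder (q n) (l n)) ∩ C).Nonempty}.Finite := by
  classical
  have h1 := not_large_image g p m hp
  -- the closure of the image is not compact
  have h2 : ¬ IsCompact (closure (g '' (cylinder p m ∩ Large g))) := fun h =>
    h1 ⟨_, h.isSigmaCompact, subset_closure⟩
  -- a sequence without cluster points
  obtain ⟨x, hx, hxc⟩ : ∃ x : ℕ → M, (∀ n, x n ∈ g '' (cylinder p m ∩ Large g)) ∧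
      ∀ (a : M) (φ : ℕ → ℕ), StrictMono φ → ¬ Tendsto (x ∘ φ) atTop (𝓝 a) := by
    by_contra hcon
    push Not at hcon
    apply h2
    rw [isCompact_iff_isSeqCompact]
    intro y hy
    have h3 : ∀ n : ℕ, ∃ x ∈ g '' (cylinder p m ∩ Large g), dist (y n) x < 1 / ((n : ℝ) + 1) :=
      fun n => Metric.mem_closure_iff.1 (hy n) _ (by positivity)
    choose x hx hxy using h3
    obtain ⟨a, φ, hφ, hlim⟩ := hcon x hx
    have h4 : Tendsto (y ∘ φ) atTop (𝓝 a) := by
      refine hlim.congr_dist ?_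
      have h5 : Tendsto (fun n : ℕ => 1 / ((φ n : ℝ) + 1)) atTop (𝓝 0) :=
        tendsto_one_div_add_atTop_nhds_zero_nat.comp hφ.tendsto_atTop
      refine squeeze_zero (fun n => dist_nonneg) (fun n => ?_) h5
      rw [dist_comm]
      exact (hxy (φ n)).le
    exact ⟨a, isClosed_closure.mem_of_tendsto h4 (Eventually.of_forall fun n => hy _), φ, hφ, h4⟩
  choose q hq hqx using hx
  have h3 : ∀ n : ℕ, ∃ l, m < l ∧ ∀ z ∈ cylinder (q n) l, dist (g z) (x n) < 1 / ((n : ℝ) + 1) := by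
    intro n
    have h4 : g ⁻¹' Metric.ball (x n) (1 / ((n : ℝ) + 1)) ∈ 𝓝 (q n) := by
      refine hg.continuousAt.preimage_mem_nhds ?_
      rw [hqx n]
      exact Metric.ball_mem_nhds _ (by positivity)
    obtain ⟨_, ⟨⟨w, k, rfl⟩, hqw, hsub⟩⟩ :=
      (isTopologicalBasis_cylinders (fun _ => ℕ)).mem_nhds_iff.1 h4
    rw [← mem_cylinder_iff_eq.1 hqw] at hsub
    exact ⟨max k (m + 1), by omega, fun z hz => hsub (cylinder_anti _ (le_max_left _ _) hz)⟩
  choose l hl hlx using h3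
  refine ⟨q, l, fun n => ⟨(hq n).2, (hq n).1, hl n⟩, fun C hC => ?_⟩
  by_contra hinf
  -- infinitely many of the sets meet `C`
  obtain ⟨φ, hφ, hφC⟩ : ∃ φ : ℕ → ℕ, StrictMono φ ∧
      ∀ n, ((g '' cylinder (q (φ n)) (l (φ n))) ∩ C).Nonempty :=
    ⟨Nat.nth _, Nat.nth_strictMono hinf, fun n => Nat.nth_mem_of_infinite hinf n⟩
  choose c hc using hφC
  obtain ⟨a, -, ψ, hψ, hlim⟩ := hC.tendsto_subseq fun n => (hc n).2
  refine hxc a (φ ∘ ψ) (hφ.comp hψ) ?_
  refine hlim.congr_dist ?_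
  have h5 : Tendsto (fun n : ℕ => 1 / ((φ (ψ n) : ℝ) + 1)) atTop (𝓝 0) :=
    tendsto_one_div_add_atTop_nhds_zero_nat.comp (hφ.comp hψ).tendsto_atTop
  refine squeeze_zero (fun n => dist_nonneg) (fun n => ?_) h5
  obtain ⟨z, hz, hzc⟩ := (hc (ψ n)).1
  have := hlx (φ (ψ n)) z hz
  rw [hzc] at this
  exact this.le

/-- Points indexed by the functions `ℕ → ℕ`. -/
theorem exists_hurewicz (hg : Continuous g) (hs : Function.Surjective g)
    (hM : ¬ SigmaCompactSpace M) : ∃ e : (ℕ → ℕ) → M, ∀ C : Set M, IsCompact C →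
      ∃ b : ℕ → ℕ, ∀ f, e f ∈ C → ∀ n, f n ≤ b n := by
  classical
  obtain ⟨p₀, hp₀⟩ : (Large g).Nonempty := by
    by_contra hne
    rw [not_nonempty_iff_eq_empty] at hne
    apply hM
    have hbas : ∀ y : ℕ → ℕ, ∃ m, ∃ T : Set M, IsSigmaCompact T ∧ g '' cylinder y m ⊆ T := by
      intro y
      have : y ∉ Large g := by rw [hne]; exact notMem_empty y
      simpa [Large] using this
    choose m T hT hm using hbas
    obtain ⟨t, ht, htc⟩ := LindelofSpace.elim_nhds_subcover (fun y => cylinder y (m y))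
      (fun y => (isOpen_cylinder _ _ _).mem_nhds (self_mem_cylinder _ _))
    rw [← isSigmaCompact_univ_iff]
    have h1 : IsSigmaCompact (⋃ y ∈ t, T y) := isSigmaCompact_biUnion ht fun y _ => hT y
    have h2 : (univ : Set M) = ⋃ y ∈ t, T y := by
      refine (eq_univ_of_forall fun a => ?_).symm
      obtain ⟨x, rfl⟩ := hs a
      have h3 : x ∈ ⋃ y ∈ t, cylinder y (m y) := by rw [htc]; exact mem_univ _
      obtain ⟨y, hy, hxy⟩ := mem_iUnion₂.1 h3
      exact mem_iUnion₂.2 ⟨y, hy, hm y ⟨x, hxy, rfl⟩⟩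
    rw [h2]
    exact h1
  choose q l hql hfin using fun (s : Large g × ℕ) => exists_step g hg s.1.1 s.2 s.1.2
  -- the states
  let nx : Large g × ℕ → ℕ → Large g × ℕ := fun s n => (⟨q s n, (hql s n).1⟩, l s n)
  let st : (ℕ → ℕ) → ℕ → Large g × ℕ := fun f k => Nat.rec (⟨p₀, hp₀⟩, 0)
    (fun k s => nx s (f k)) k
  have hst : ∀ f k, st f (k + 1) = nx (st f k) (f k) := fun f k => rfl
  have hk : ∀ f k, k ≤ (st f k).2 := by
    intro f k
    induction k with
    | zero => exact Nat.zero_le _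
    | succ k ih =>
      rw [hst]
      exact lt_of_le_of_lt ih (hql (st f k) (f k)).2.2
  have hcyl : ∀ f k, cylinder ((st f (k + 1)).1 : ℕ → ℕ) (st f (k + 1)).2 ⊆
      cylinder ((st f k).1 : ℕ → ℕ) (st f k).2 := by
    intro f k
    rw [hst]
    have h1 := (hql (st f k) (f k)).2
    rw [← mem_cylinder_iff_eq.1 h1.1]
    exact cylinder_anti _ h1.2.le
  have hcyl' : ∀ f k j, k ≤ j → cylinder ((st f j).1 : ℕ → ℕ) (st f j).2 ⊆
      cylinder ((st f k).1 : ℕ → ℕ) (st f k).2 := by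
    intro f k j hkj
    induction j, hkj using Nat.le_induction with
    | base => exact Subset.rfl
    | succ j _ ih => exact (hcyl f j).trans ih
  let z : (ℕ → ℕ) → ℕ → ℕ := fun f i => ((st f (i + 1)).1 : ℕ → ℕ) i
  have hz : ∀ f k, z f ∈ cylinder ((st f k).1 : ℕ → ℕ) (st f k).2 := by
    intro f k i hi
    change ((st f (i + 1)).1 : ℕ → ℕ) i = ((st f k).1 : ℕ → ℕ) i
    rcases le_total (i + 1) k with h | h
    · have h1 := hcyl' f (i + 1) k h (self_mem_cylinder _ _)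
      exact (h1 i (lt_of_lt_of_le (Nat.lt_succ_self i) (hk f (i + 1)))).symm
    · have h1 := hcyl' f k (i + 1) h (self_mem_cylinder _ _)
      exact h1 i hi
  refine ⟨fun f => g (z f), fun C hC => ?_⟩
  have hfinite : ∀ k, {s | ∃ f, g (z f) ∈ C ∧ st f k = s}.Finite := by
    intro k
    induction k with
    | zero =>
      refine (finite_singleton ((⟨p₀, hp₀⟩, 0) : Large g × ℕ)).subset ?_
      rintro s ⟨f, -, rfl⟩
      rfl
    | succ k ih =>
      refine (ih.biUnion fun s _ => (hfin s C hC).image (nx s)).subset ?_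
      rintro s ⟨f, hf, rfl⟩
      refine mem_iUnion₂.2 ⟨st f k, ⟨f, hf, rfl⟩, f k, ?_, rfl⟩
      exact ⟨_, ⟨z f, hz f (k + 1), rfl⟩, hf⟩
  have hbd : ∀ k, ∃ b, ∀ f, g (z f) ∈ C → f k ≤ b := by
    intro k
    obtain ⟨b, hb⟩ := ((hfinite k).biUnion fun s _ => hfin s C hC).bddAbove
    refine ⟨b, fun f hf => hb (mem_iUnion₂.2 ⟨st f k, ⟨f, hf, rfl⟩, ?_⟩)⟩
    exact ⟨_, ⟨z f, hz f (k + 1), rfl⟩, hf⟩
  choose b hb using hbd
  exact ⟨b, fun f hf n => hb n f hf⟩

end Step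

end Pool.Agent.LibOM74
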