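import Pool.Agent.LibOM74.Product

open Set Topology Filter
open scoped Cardinal

namespace Pool.Agent.LibOM74

/-- Countably many functions are dominated by one. -/
theorem dom_countable (F : Set (ℕ → ℕ)) (hF : F.Countable) : ∃ g, ∀ f ∈ F, Dom f g := by
  rcases F.eq_empty_or_nonempty with rfl | hne
  · exact ⟨0, fun f hf => absurd hf (notMem_empty f)⟩
  obtain ⟨h, rfl⟩ := hF.exists_eq_range hne
  refine ⟨fun n => ∑ k ∈ Finset.range (n + 1), h k n, ?_⟩
  rintro _ ⟨k, rfl⟩
  refine eventually_atTop.2 ⟨k, fun n hn => ?_⟩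
  exact Finset.single_le_sum (f := fun k => h k n) (fun _ _ => Nat.zero_le _)
    (Finset.mem_range.2 (Nat.lt_succ_of_le hn))

theorem isCompact_le (g : ℕ → ℕ) : IsCompact {x : ℕ → ℕ | ∀ n, x n ≤ g n} := by
  have : {x : ℕ → ℕ | ∀ n, x n ≤ g n} = Set.pi univ fun n => Iic (g n) := by
    ext x
    simp [Pi.le_def]
  rw [this]
  exact isCompact_univ_pi fun n => (finite_Iic (g n)).isCompact

theorem exists_bound (C : Set (ℕ → ℕ)) (hC : IsCompact C) : ∃ g : ℕ → ℕ, ∀ x ∈ C, ∀ n, x n ≤ g n := by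
  have : ∀ n : ℕ, ∃ b : ℕ, ∀ x ∈ C, x n ≤ b := by
    intro n
    have h := (hC.image (continuous_apply n)).bddAbove
    obtain ⟨b, hb⟩ := h
    exact ⟨b, fun x hx => hb (mem_image_of_mem _ hx)⟩
  choose g hg using this
  exact ⟨g, fun x hx n => hg n x hx⟩

/-- If `𝔟 = ℵ₁`, a space with points indexed by the functions `ℕ → ℕ`, boundedly many in each
compact set, has an uncountable set that meets every compact set in a countable set. -/
theorem not_compacts_of_bounding (h : bounding = ℵ₁) (M : Type) [TopologicalSpace M]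
    (e : (ℕ → ℕ) → M) (he : ∀ C : Set M, IsCompact C → ∃ b : ℕ → ℕ, ∀ f, e f ∈ C → ∀ n, f n ≤ b n) :
    ¬ UncountableOnCompacts M := by
  classical
  have hne : {c | ∃ F : Set (ℕ → ℕ), #F = c ∧ ∀ g, ∃ f ∈ F, ¬ Dom f g}.Nonempty := by
    refine ⟨_, univ, rfl, fun g => ⟨fun n => g n + 1, mem_univ _, fun hcon => ?_⟩⟩
    obtain ⟨n, hn⟩ := hcon.exists
    exact absurd hn (by simp)
  obtain ⟨F, hF, hFu⟩ : ∃ F : Set (ℕ → ℕ), #F = ℵ₁ ∧ ∀ g, ∃ f ∈ F, ¬ Dom f g := by
    have := csInf_mem hne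
    rw [← bounding, h] at this
    exact this
  obtain ⟨ι, _, _, hι, hunc, hcard⟩ := exists_omega1
  obtain ⟨σ⟩ : Nonempty (ι ≃ F) := Cardinal.eq.1 (hcard.trans hF.symm)
  have hdom : ∀ i : ι, ∃ g, ∀ j ≤ i, Dom (σ j) g := by
    intro i
    obtain ⟨g, hg⟩ := dom_countable ((fun j : ι => ((σ j : F) : ℕ → ℕ)) '' Iic i) (by
      refine Countable.image ?_ _
      rw [← Iio_insert]
      exact (hι i).insert i)
    exact ⟨g, fun j hj => hg _ ⟨j, hj, rfl⟩⟩
  choose f hf using hdom
  have key : ∀ g, {i | Dom (f i) g}.Countable := by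
    intro g
    obtain ⟨f₀, hf₀, hnd⟩ := hFu g
    refine (hι (σ.symm ⟨f₀, hf₀⟩)).mono fun i hi => ?_
    by_contra hcon
    apply hnd
    have h1 := hf i (σ.symm ⟨f₀, hf₀⟩) (not_lt.1 hcon)
    rw [σ.apply_symm_apply] at h1
    filter_upwards [h1, hi] with n h2 h3 using h2.trans h3
  refine not_compacts_of_family hunc (fun i => e (f i)) fun C hC => ?_
  obtain ⟨b, hb⟩ := he C hC
  exact (key b).mono fun i hi => Eventually.of_forall (hb _ hi)

/-- If `𝔟 ≠ ℵ₁` then uncountable sets of functions meet some compact set in an uncountable set. -/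
theorem compacts_of_bounding (h : bounding ≠ ℵ₁) : UncountableOnCompacts (ℕ → ℕ) := by
  intro S hS
  have h1 : ℵ₁ ≤ #S := by
    rw [Cardinal.aleph_one_le_iff]
    exact lt_of_not_ge fun h2 => hS (Cardinal.le_aleph0_iff_set_countable.1 h2)
  obtain ⟨F, hFS, hF⟩ := Cardinal.le_mk_iff_exists_subset.1 h1
  obtain ⟨g, hg⟩ : ∃ g, ∀ f ∈ F, Dom f g := by
    by_contra hcon
    push Not at hcon
    have h2 : bounding ≤ ℵ₁ := csInf_le' ⟨F, hF, hcon⟩
    have h3 : bounding ≤ ℵ₀ := Cardinal.lt_aleph_one_iff.1 (lt_of_le_of_ne h2 h)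
    have hne : {c | ∃ F : Set (ℕ → ℕ), #F = c ∧ ∀ g, ∃ f ∈ F, ¬ Dom f g}.Nonempty := ⟨_, F, hF, hcon⟩
    obtain ⟨F', hF', hu⟩ := csInf_mem hne
    rw [← bounding] at hF'
    obtain ⟨g, hg⟩ := dom_countable F' (Cardinal.le_aleph0_iff_set_countable.1 (hF'.trans_le h3))
    obtain ⟨f, hf, hfg⟩ := hu g
    exact hfg (hg f hf)
  by_contra hcon
  push Not at hcon
  have hFc : F.Countable := by
    have : F ⊆ ⋃ N : ℕ, S ∩ {x : ℕ → ℕ | ∀ n, x n ≤ g n + N} := by
      intro f hf
      obtain ⟨m, hm⟩ := eventually_atTop.1 (hg f hf)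
      refine mem_iUnion.2 ⟨∑ k ∈ Finset.range m, f k, hFS hf, fun n => ?_⟩
      by_cases hn : m ≤ n
      · exact (hm n hn).trans (Nat.le_add_right _ _)
      · exact (Finset.single_le_sum (f := f) (fun _ _ => Nat.zero_le _)
          (Finset.mem_range.2 (not_le.1 hn))).trans (Nat.le_add_left _ _)
    exact (countable_iUnion fun N => hcon _ (isCompact_le _)).mono this
  have h4 := Cardinal.le_aleph0_iff_set_countable.2 hFc
  rw [hF] at h4
  exact absurd h4 (not_le.2 Cardinal.aleph0_lt_aleph_one)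

/-- The property passes to continuous images. -/
theorem UncountableOnCompacts.image {X M : Type} [TopologicalSpace X] [TopologicalSpace M]
    (h : UncountableOnCompacts X) (f : X → M) (hf : Continuous f) (hs : Function.Surjective f) :
    UncountableOnCompacts M := by
  intro S hS
  set σ := Function.surjInv hs
  have hσ : Function.Injective σ := Function.injective_surjInv hs
  obtain ⟨C, hC, hSC⟩ := h (σ '' S) fun h1 => hS (countable_of_injective_of_countable_image
    hσ.injOn h1)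
  refine ⟨f '' C, hC.image hf, fun h1 => hSC ?_⟩
  refine (h1.image σ).mono ?_
  rintro _ ⟨⟨s, hs', rfl⟩, hc⟩
  refine ⟨s, ⟨hs', ⟨σ s, hc, Function.surjInv_eq hs s⟩⟩, rfl⟩

theorem polish_compacts_of_bounding (h : bounding ≠ ℵ₁) (M : Type) [TopologicalSpace M]
    [PolishSpace M] : UncountableOnCompacts M := by
  rcases isEmpty_or_nonempty M with hM | hM
  · intro S hS
    exact absurd (Set.countable_of_injective_of_countable_image (f := id) (injOn_id _)
      (by rw [Set.eq_empty_of_isEmpty (id '' S)]; exact countable_empty)) hS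
  obtain ⟨f, hf, hs⟩ := PolishSpace.exists_nat_nat_continuous_surjective M
  exact (compacts_of_bounding h).image f hf hs

end Pool.Agent.LibOM74
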