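import Pool.Agent.LibOM74.Defs

open Set Topology Filter
open scoped Cardinal

namespace Pool.Agent.LibOM74

/-- The right half of the class of a point. -/
theorem right_half {M Y : Type} [TopologicalSpace M] [SecondCountableTopology M]
    [LinearOrder Y] [TopologicalSpace Y] [LindelofSpace Y] (hY : IsGO Y)
    (𝒰 : Set (Set (M × Y))) (hU : ∀ U ∈ 𝒰, IsOpen U) (hcov : ⋃₀ 𝒰 = univ)
    (hdir : ∀ 𝒞 ⊆ 𝒰, 𝒞.Countable → ∃ U ∈ 𝒰, ⋃₀ 𝒞 ⊆ U) (B : Set M) (y : Y) :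
    ∃ U ∈ 𝒰, B ×ˢ {z | y ≤ z ∧ ∃ U ∈ 𝒰, B ×ˢ Icc y z ⊆ U} ⊆ U := by
  classical
  set R : Set Y := {z | y ≤ z ∧ ∃ U ∈ 𝒰, B ×ˢ Icc y z ⊆ U} with hR
  -- countable unions of members
  have hun : ∀ (ι : Type) [Countable ι] (V : ι → Set (M × Y)), (∀ i, V i ∈ 𝒰) →
      ∃ U ∈ 𝒰, ∀ i, V i ⊆ U := by
    intro ι _ V hV
    obtain ⟨U, h1, h2⟩ := hdir (range V) (by rintro _ ⟨i, rfl⟩; exact hV i) (countable_range V)
    exact ⟨U, h1, fun i => (subset_sUnion_of_mem (mem_range_self i)).trans h2⟩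
  -- a countable cofinal subset is enough
  have hcof : ∀ T : Set Y, T.Countable → T ⊆ R → (∀ r ∈ R, ∃ t ∈ T, r ≤ t) →
      ∃ U ∈ 𝒰, B ×ˢ R ⊆ U := by
    intro T hT hTR hc
    have : Countable T := hT.to_subtype
    choose V hV1 hV2 using fun t : T => (hTR t.2).2
    obtain ⟨U, h1, h2⟩ := hun T V hV1
    refine ⟨U, h1, ?_⟩
    rintro ⟨m, r⟩ ⟨hm, hr⟩
    obtain ⟨t, ht, hrt⟩ := hc r hr
    exact h2 ⟨t, ht⟩ (hV2 ⟨t, ht⟩ ⟨hm, hr.1, hrt⟩)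
  by_contra hno
  have hno' : ∀ T : Set Y, T.Countable → T ⊆ R → ∃ r ∈ R, ∀ t ∈ T, t < r := by
    intro T hT hTR
    by_contra hc
    push Not at hc
    exact hno (hcof T hT hTR hc)
  -- neighbourhoods
  have key : ∀ w : Y, ∃ G : Set Y, IsOpen G ∧ w ∈ G ∧
      ((∃ r ∈ R, G = Iio r) ∨ G ∩ R = ∅) := by
    intro w
    by_cases hw : ∃ r ∈ R, w < r
    · obtain ⟨r, hr, hwr⟩ := hw
      exact ⟨Iio r, hY.isOpen_Iio r, hwr, Or.inl ⟨r, hr, rfl⟩⟩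
    push Not at hw
    by_contra hcon
    push Not at hcon
    have hmeet : ∀ G : Set Y, IsOpen G → w ∈ G → (G ∩ R).Nonempty := fun G h1 h2 =>
      (hcon G h1 h2).2
    -- points of B
    have hpt : ∀ m : B, ∃ (Bm : Set M) (G : Set Y) (r : Y) (U : Set (M × Y)), IsOpen Bm ∧
        (m : M) ∈ Bm ∧ w ∈ G ∧ G.OrdConnected ∧ r ∈ G ∧ r ∈ R ∧ U ∈ 𝒰 ∧ Bm ×ˢ G ⊆ U := by
      intro m
      have h1 : ((m : M), w) ∈ ⋃₀ 𝒰 := by rw [hcov]; exact mem_univ _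
      obtain ⟨U, hU1, hU2⟩ := h1
      obtain ⟨Bm, G0, hBm, hG0, hm, hw0, hsub⟩ := isOpen_prod_iff.1 (hU U hU1) m w hU2
      obtain ⟨G, hG, hwG, hGG, hconv⟩ := hY.exists_convex w G0 hG0 hw0
      obtain ⟨r, hr1, hr2⟩ := hmeet G hG hwG
      exact ⟨Bm, G, r, U, hBm, hm, hwG, hconv, hr1, hr2, hU1,
        (prod_mono_right hGG).trans hsub⟩
    choose Bm G r U hBm hmB hwG hconv hrG hrR hUm hsub using hpt
    have hBL : IsLindelof (univ : Set B) := HereditarilyLindelofSpace.isLindelof _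
    obtain ⟨T, hT, hTc⟩ := hBL.elim_nhds_subcover (fun m : B => Subtype.val ⁻¹' (Bm m))
      (fun m _ => ((hBm m).preimage continuous_subtype_val).mem_nhds (hmB m))
    obtain ⟨q, hq, hqT⟩ := hno' (r '' T) (hT.image r) (by rintro _ ⟨m, -, rfl⟩; exact hrR m)
    have : Countable T := hT.to_subtype
    obtain ⟨V, hV1, hV2⟩ := hun T (fun m => U m) (fun m => hUm m)
    obtain ⟨V', hV'1, hV'2⟩ := hq.2
    obtain ⟨V'', hV''1, hV''2⟩ := hun Bool (fun b => if b then V else V')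
      (by intro b; cases b <;> simp [hV1, hV'1])
    have hwR : w ∈ R := by
      refine ⟨hq.1.trans (hw q hq), V'', hV''1, ?_⟩
      rintro ⟨m, x⟩ ⟨hm, hx1, hx2⟩
      by_cases hxq : x ≤ q
      · exact hV''2 false (hV'2 ⟨hm, hx1, hxq⟩)
      · have h1 : (⟨m, hm⟩ : B) ∈ ⋃ x ∈ T, Subtype.val ⁻¹' (Bm x) := hTc.2 (mem_univ _)
        simp only [mem_iUnion] at h1
        obtain ⟨n, hn, hmn⟩ := h1
        have h2 : x ∈ G n := (hconv n).out (hrG n) (hwG n)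
          ⟨((hqT _ (mem_image_of_mem r hn)).trans (not_le.1 hxq)).le, hx2⟩
        exact hV''2 true (hV2 ⟨n, hn⟩ (hsub n ⟨hmn, h2⟩))
    obtain ⟨r', hr', hlt⟩ := hno' {w} (countable_singleton w) (by simpa using hwR)
    exact absurd (hlt w rfl) (not_lt.2 (hw r' hr'))
  choose G hG hwG hGR using key
  obtain ⟨T, hT, hTc⟩ := LindelofSpace.elim_nhds_subcover G (fun w => (hG w).mem_nhds (hwG w))
  obtain ⟨q, hq, hqT⟩ := hno' {r | r ∈ R ∧ ∃ w ∈ T, G w = Iio r} (by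
    have : {r | r ∈ R ∧ ∃ w ∈ T, G w = Iio r} ⊆
        ⋃ w ∈ T, {r | G w = Iio r} := by
      rintro r ⟨-, w, hw, h⟩
      simp only [mem_iUnion]
      exact ⟨w, hw, h⟩
    refine (hT.biUnion fun w _ => ?_).mono this
    refine Set.Subsingleton.countable ?_
    intro a ha b hb
    exact Iio_injective (ha.symm.trans hb)) (fun r hr => hr.1)
  have h1 : q ∈ ⋃ x ∈ T, G x := by rw [hTc]; exact mem_univ _
  simp only [mem_iUnion] at h1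
  obtain ⟨w, hw, hqw⟩ := h1
  rcases hGR w with ⟨r, hr, h⟩ | h
  · have h2 := hqT r ⟨hr, w, hw, h⟩
    rw [h] at hqw
    exact absurd h2 (not_lt.2 (le_of_lt hqw))
  · exact (h ▸ (⟨hqw, hq⟩ : q ∈ G w ∩ R) : q ∈ (∅ : Set Y))

theorem IsGO.dual {Y : Type} [LinearOrder Y] [TopologicalSpace Y] (hY : IsGO Y) : IsGO Yᵒᵈ where
  isOpen_Iio a := hY.isOpen_Ioi (OrderDual.ofDual a)
  isOpen_Ioi a := hY.isOpen_Iio (OrderDual.ofDual a)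
  exists_convex y U h1 h2 := by
    obtain ⟨V, h3, h4, h5, h6⟩ := hY.exists_convex (OrderDual.ofDual y) U h1 h2
    exact ⟨V, h3, h4, h5, h6.dual⟩

theorem left_half {M Y : Type} [TopologicalSpace M] [SecondCountableTopology M]
    [LinearOrder Y] [TopologicalSpace Y] [LindelofSpace Y] (hY : IsGO Y)
    (𝒰 : Set (Set (M × Y))) (hU : ∀ U ∈ 𝒰, IsOpen U) (hcov : ⋃₀ 𝒰 = univ)
    (hdir : ∀ 𝒞 ⊆ 𝒰, 𝒞.Countable → ∃ U ∈ 𝒰, ⋃₀ 𝒞 ⊆ U) (B : Set M) (y : Y) :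
    ∃ U ∈ 𝒰, B ×ˢ {z | z ≤ y ∧ ∃ U ∈ 𝒰, B ×ˢ Icc z y ⊆ U} ⊆ U := by
  have : LindelofSpace Yᵒᵈ := ‹LindelofSpace Y›
  obtain ⟨U, h1, h2⟩ := right_half (Y := Yᵒᵈ) hY.dual 𝒰 hU hcov hdir B (OrderDual.toDual y)
  refine ⟨U, h1, ?_⟩
  rintro ⟨m, z⟩ ⟨hm, hz, V, hV, hVz⟩
  refine h2 ⟨hm, hz, V, hV, ?_⟩
  rintro ⟨m', x⟩ ⟨hm', hx1, hx2⟩
  exact hVz ⟨hm', hx2, hx1⟩

theorem cap_of_go (M Y : Type) [TopologicalSpace M] [SecondCountableTopology M]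
    [LinearOrder Y] [TopologicalSpace Y] [LindelofSpace Y] (hY : IsGO Y) : Cap M Y := by
  intro 𝒰 hU hcov hdir B _
  have hun2 : ∀ U₁ ∈ 𝒰, ∀ U₂ ∈ 𝒰, ∃ U ∈ 𝒰, U₁ ∪ U₂ ⊆ U := by
    intro U₁ h1 U₂ h2
    obtain ⟨U, h3, h4⟩ := hdir {U₁, U₂} (by rintro _ (rfl | rfl) <;> assumption)
      ((countable_singleton _).insert _)
    refine ⟨U, h3, ?_⟩
    rwa [sUnion_pair] at h4
  refine ⟨fun y => {{z | (y ≤ z ∧ ∃ U ∈ 𝒰, B ×ˢ Icc y z ⊆ U) ∨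
    (z ≤ y ∧ ∃ U ∈ 𝒰, B ×ˢ Icc z y ⊆ U)}}, fun y => countable_singleton _, ?_, ?_⟩
  · rintro y _ rfl
    obtain ⟨U₁, h1, h1'⟩ := right_half hY 𝒰 hU hcov hdir B y
    obtain ⟨U₂, h2, h2'⟩ := left_half hY 𝒰 hU hcov hdir B y
    obtain ⟨U, h3, h4⟩ := hun2 U₁ h1 U₂ h2
    refine ⟨U, h3, ?_⟩
    rintro ⟨m, z⟩ ⟨hm, hz | hz⟩
    · exact h4 (Or.inl (h1' ⟨hm, hz⟩))
    · exact h4 (Or.inr (h2' ⟨hm, hz⟩))
  · rintro y G hG hy ⟨U, hU1, hU2⟩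
    obtain ⟨V, hV, hyV, hVG, hconv⟩ := hY.exists_convex y G hG hy
    refine ⟨V, hV, hyV, fun z hz => ⟨_, rfl, fun w hw => ?_⟩⟩
    rcases le_total z w with h | h
    · exact Or.inl ⟨h, U, hU1, (prod_mono_right ((hconv.out hz hw).trans hVG)).trans hU2⟩
    · exact Or.inr ⟨h, U, hU1, (prod_mono_right ((hconv.out hw hz).trans hVG)).trans hU2⟩

end Pool.Agent.LibOM74
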