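import Pool.Agent.LibOM74.Defs

open Set Topology Filter
open scoped Cardinal

namespace Pool.Agent.LibOM74

theorem cap_of_hml (M Y : Type) [TopologicalSpace M] [TopologicalSpace Y]
    (h : HereditarilyMetaLindelof Y) : Cap M Y := by
  intro 𝒰 _ _ _ B _
  obtain ⟨𝒲, h1, h2, h3⟩ := h {G | IsOpen G ∧ ∃ U ∈ 𝒰, B ×ˢ G ⊆ U} (fun V hV => hV.1)
  refine ⟨fun y => {W ∈ 𝒲 | y ∈ W}, h3, ?_, ?_⟩
  · rintro y E ⟨hE, -⟩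
    obtain ⟨V, ⟨-, U, hU, hVU⟩, hEV⟩ := (h1 E hE).2
    exact ⟨U, hU, (prod_mono_right hEV).trans hVU⟩
  · intro y G hG hy hU
    have : y ∈ ⋃₀ 𝒲 := by
      rw [h2]
      exact ⟨G, ⟨hG, hU⟩, hy⟩
    obtain ⟨W, hW, hyW⟩ := this
    exact ⟨W, (h1 W hW).1, hyW, fun z hz => ⟨W, ⟨hW, hz⟩, Subset.rfl⟩⟩

end Pool.Agent.LibOM74
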