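import Pool.Agent.LibOM74.Product

/-!
A coanalytic set that is not Borel has an uncountable subset that meets every compact subset of it
in a countable set.
-/

open Set Topology Filter
open scoped Cardinal

namespace Pool.Agent.LibOM74

open PiNat

section

variable {X : Type} [MetricSpace X] (g : (ℕ → ℕ) → X)

/-- The points near the image of the cylinder of `t`. -/
def Near (t : List ℕ) : Set X :=
  {x | ∃ y : ℕ → ℕ, res y t.length = t ∧ dist x (g y) < (1 / 2 : ℝ) ^ t.length}

theorem isOpen_near (t : List ℕ) : IsOpen (Near g t) := by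
  have : Near g t = ⋃ y ∈ {y : ℕ → ℕ | res y t.length = t},
      Metric.ball (g y) ((1 / 2 : ℝ) ^ t.length) := by
    ext x
    simp [Near]
  rw [this]
  exact isOpen_biUnion fun _ _ => Metric.isOpen_ball

variable {ι : Type} [LinearOrder ι] [WellFoundedLT ι]

/-- `x ∈ Der g i t`: the node `t` of the tree of `x` has rank at least `i`. -/
noncomputable def Der : ι → List ℕ → Set X :=
  (wellFounded_lt (α := ι)).fix fun i W t => {x | x ∈ Near g t ∧
    ∀ j, ∀ hj : j < i, ∃ n : ℕ, x ∈ W j hj (n :: t)}

theorem mem_der (i : ι) (t : List ℕ) (x : X) :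
    x ∈ Der g i t ↔ x ∈ Near g t ∧ ∀ j < i, ∃ n : ℕ, x ∈ Der g j (n :: t) := by
  have h : Der g i = fun t => {x | x ∈ Near g t ∧ ∀ j, ∀ _ : j < i, ∃ n : ℕ, x ∈ Der g j (n :: t)} :=
    (wellFounded_lt (α := ι)).fix_eq _ i
  rw [h]
  rfl

theorem measurable_der [MeasurableSpace X] [BorelSpace X] (hι : ∀ i : ι, (Iio i).Countable)
    (i : ι) : ∀ t, MeasurableSet (Der g i t) := by
  induction i using WellFoundedLT.induction with
  | ind i ih =>
    intro t
    have : Der g i t = Near g t ∩ ⋂ j ∈ Iio i, ⋃ n : ℕ, Der g j (n :: t) := by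
      ext x
      rw [mem_der]
      simp
    rw [this]
    exact (isOpen_near g t).measurableSet.inter
      (MeasurableSet.biInter (hι i) fun j hj => MeasurableSet.iUnion fun n => ih j hj _)

/-- The points of the image have full rank. -/
theorem range_subset_der (z : ℕ → ℕ) (i : ι) : ∀ k, g z ∈ Der g i (res z k) := by
  induction i using WellFoundedLT.induction with
  | ind i ih =>
    intro k
    rw [mem_der]
    refine ⟨⟨z, by rw [res_length], ?_⟩, fun j hj => ⟨z k, ?_⟩⟩
    · rw [dist_self]
      positivity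
    · rw [← res_succ]
      exact ih j hj (k + 1)

/-- A compact set that meets all `Der g i []` meets the image. -/
theorem meets_range (hg : Continuous g) (hι : ∀ i : ι, (Iio i).Countable) (C : Set X)
    (hC : IsCompact C) (h : ¬ {i : ι | (C ∩ Der g i []).Nonempty}.Countable) :
    ∃ z, g z ∈ C := by
  classical
  have hun : ∀ J : Set ι, ¬ J.Countable → ∀ j, ∃ i ∈ J, j < i := by
    intro J hJ j
    by_contra hcon
    push Not at hcon
    exact hJ (((hι j).insert j).mono fun i hi => by
      rw [Iio_insert]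
      exact hcon i hi)
  have step : ∀ t : List ℕ, ¬ {i : ι | (C ∩ Der g i t).Nonempty}.Countable →
      ∃ n : ℕ, ¬ {i : ι | (C ∩ Der g i (n :: t)).Nonempty}.Countable := by
    intro t ht
    by_contra hcon
    push Not at hcon
    apply h
    refine (countable_iUnion hcon).mono fun j _ => ?_
    obtain ⟨i, ⟨x, hxC, hx⟩, hji⟩ := hun _ ht j
    obtain ⟨n, hn⟩ := ((mem_der g i t x).1 hx).2 j hji
    exact mem_iUnion.2 ⟨n, x, hxC, hn⟩
  choose! nx hnx using step
  let st : ℕ → List ℕ := fun k => Nat.rec [] (fun _ t => nx t :: t) k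
  have hst : ∀ k, ¬ {i : ι | (C ∩ Der g i (st k)).Nonempty}.Countable := by
    intro k
    induction k with
    | zero => exact h
    | succ k ih => exact hnx _ ih
  let z : ℕ → ℕ := fun k => nx (st k)
  have hres : ∀ k, res z k = st k := by
    intro k
    induction k with
    | zero => rfl
    | succ k ih => rw [res_succ, ih]
  have hpt : ∀ k, ∃ x ∈ C, ∃ y : ℕ → ℕ, res y k = res z k ∧ dist x (g y) < (1 / 2 : ℝ) ^ k := by
    intro k
    have h1 : {i : ι | (C ∩ Der g i (st k)).Nonempty}.Nonempty := by
      by_contra hne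
      rw [not_nonempty_iff_eq_empty] at hne
      exact hst k (hne ▸ countable_empty)
    obtain ⟨i, x, hxC, hx⟩ := h1
    obtain ⟨y, hy1, hy2⟩ := ((mem_der g i _ x).1 hx).1
    rw [← hres k, res_length] at hy1 hy2
    exact ⟨x, hxC, y, hy1, hy2⟩
  choose x hxC y hy hxy using hpt
  have hlim : Tendsto y atTop (𝓝 z) := by
    rw [tendsto_pi_nhds]
    intro m
    refine tendsto_const_nhds.congr' ?_
    filter_upwards [eventually_gt_atTop m] with k hk
    exact (res_eq_res.1 (hy k) hk).symm
  have hglim : Tendsto (fun k => g (y k)) atTop (𝓝 (g z)) := (hg.tendsto z).comp hlim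
  have hxlim : Tendsto x atTop (𝓝 (g z)) := by
    refine hglim.congr_dist ?_
    refine squeeze_zero (fun n => dist_nonneg) (fun n => ?_)
      (tendsto_pow_atTop_nhds_zero_of_lt_one (by norm_num : (0 : ℝ) ≤ 1 / 2) (by norm_num))
    rw [dist_comm]
    exact (hxy n).le
  exact ⟨z, hC.isClosed.mem_of_tendsto hxlim (Eventually.of_forall hxC)⟩

end

/-- A coanalytic set that is not Borel. -/
theorem coanalytic_not_compacts {X : Type} [TopologicalSpace X] [PolishSpace X]
    [MeasurableSpace X] [BorelSpace X] (M : Set X)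
    (hM : MeasureTheory.AnalyticSet Mᶜ) (hB : ¬ MeasurableSet M) :
    ¬ UncountableOnCompacts M := by
  classical
  let := TopologicalSpace.metrizableSpaceMetric X
  rw [MeasureTheory.AnalyticSet] at hM
  rcases hM with hM | ⟨g, hg, hgM⟩
  · exfalso
    rw [compl_empty_iff] at hM
    rw [hM] at hB
    exact hB MeasurableSet.univ
  obtain ⟨ι, _, _, hι, hunc, -⟩ := exists_omega1
  have hx : ∀ i : ι, ∃ x ∈ M, x ∈ Der g i [] := by
    intro i
    by_contra hcon
    push Not at hcon
    apply hB
    have h1 : Mᶜ = Der g i [] := by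
      apply Subset.antisymm
      · rw [← hgM]
        rintro _ ⟨z, rfl⟩
        exact range_subset_der g z i 0
      · intro x hx hxM
        exact hcon x hxM hx
    have h2 : MeasurableSet (Der g i []) := measurable_der g hι i []
    rw [← h1] at h2
    have h3 := h2.compl
    rwa [compl_compl] at h3
  choose x hxM hx using hx
  refine not_compacts_of_family hunc (fun i => (⟨x i, hxM i⟩ : M)) fun C hC => ?_
  by_contra hcon
  have h1 : ¬ {i : ι | (Subtype.val '' C ∩ Der g i []).Nonempty}.Countable := by
    intro h2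
    refine hcon (h2.mono ?_)
    intro i hi
    exact ⟨x i, ⟨⟨x i, hxM i⟩, hi, rfl⟩, hx i⟩
  obtain ⟨z, y, -, hyz⟩ := meets_range g hg hι (Subtype.val '' C)
    (hC.image continuous_subtype_val) h1
  have h2 : g z ∈ Mᶜ := hgM ▸ mem_range_self z
  rw [← hyz] at h2
  exact h2 y.2

end Pool.Agent.LibOM74
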