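import Pool.Agent.LibOM74.Product

/-!
The well-founded relations on `ℕ` form a coanalytic set with an uncountable subset that meets every
compact set of well-founded relations in a countable set.
-/

open Set Topology Filter
open scoped Cardinal

namespace Pool.Agent.LibOM74

/-- The relation on `ℕ` coded by `x`. -/
def Rel (x : ℕ → Bool) (m n : ℕ) : Prop := x (Nat.pair m n) = true

/-- The codes of the well-founded relations on `ℕ`. -/
def WF : Set (ℕ → Bool) := {x | WellFounded (Rel x)}

theorem isClosed_rel (m n : ℕ) : IsClosed {x : ℕ → Bool | Rel x m n} :=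
  isClosed_eq (continuous_apply _) continuous_const

/-- The complement of `WF` is analytic. -/
theorem analytic_compl : MeasureTheory.AnalyticSet WFᶜ := by
  have h1 : IsClosed {q : (ℕ → Bool) × (ℕ → ℕ) | ∀ k, Rel q.1 (q.2 (k + 1)) (q.2 k)} := by
    have : {q : (ℕ → Bool) × (ℕ → ℕ) | ∀ k, Rel q.1 (q.2 (k + 1)) (q.2 k)} =
        ⋂ k : ℕ, {q | Rel q.1 (q.2 (k + 1)) (q.2 k)} := by
      ext q; simp
    rw [this]
    refine isClosed_iInter fun k => ?_
    have h2 : Continuous fun q : (ℕ → Bool) × (ℕ → ℕ) =>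
        (q.1, (q.2 (k + 1), q.2 k)) := by fun_prop
    have h3 : IsClosed {q : (ℕ → Bool) × (ℕ × ℕ) | Rel q.1 q.2.1 q.2.2} := by
      have h4 : {q : (ℕ → Bool) × (ℕ × ℕ) | Rel q.1 q.2.1 q.2.2}ᶜ =
          ⋃ p : ℕ × ℕ, {x : ℕ → Bool | Rel x p.1 p.2}ᶜ ×ˢ {p} := by
        ext ⟨x, p⟩
        simp
      rw [← isOpen_compl_iff, h4]
      exact isOpen_iUnion fun p => (isClosed_rel p.1 p.2).isOpen_compl.prod (isOpen_discrete _)
    exact h3.preimage h2
  have h2 : WFᶜ = Prod.fst '' {q : (ℕ → Bool) × (ℕ → ℕ) | ∀ k, Rel q.1 (q.2 (k + 1)) (q.2 k)} := by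
    ext x
    constructor
    · intro hx
      have : ¬ IsEmpty {s : ℕ → ℕ // ∀ k, Rel x (s (k + 1)) (s k)} := fun h =>
        hx (wellFounded_iff_isEmpty_descending_chain.2 h)
      obtain ⟨s, hs⟩ := not_isEmpty_iff.1 this
      exact ⟨(x, s), hs, rfl⟩
    · rintro ⟨⟨x, s⟩, hs, rfl⟩ hx
      exact (wellFounded_iff_isEmpty_descending_chain.1 hx).false ⟨s, hs⟩
  rw [h2]
  have : PolishSpace Bool := inferInstance
  exact h1.analyticSet.image_of_continuous continuous_fst

variable {ι : Type} [LinearOrder ι]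

/-- The well-order of the elements up to `j` is mapped into the relation `x`, and `j` to `n`. -/
def Emb (x : ℕ → Bool) (j : ι) (n : ℕ) : Prop :=
  ∃ h : ι → ℕ, h j = n ∧ ∀ a b, a < b → b ≤ j → Rel x (h a) (h b)

/-- A compact set of relations that admits embeddings of all initial segments of `ι` has an
ill-founded member. -/
theorem exists_illfounded (hι : ∀ i : ι, (Iio i).Countable) (hunc : ¬ Countable ι)
    (C : Set (ℕ → Bool)) (hC : IsCompact C) (h : ∀ j : ι, ∃ x ∈ C, ∃ n, Emb x j n) :
    ∃ x ∈ C, x ∉ WF := by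
  classical
  have huniv : ¬ (univ : Set ι).Countable := fun h1 => hunc (countable_univ_iff.1 h1)
  have hun : ∀ J : Set ι, ¬ J.Countable → ∀ j, ∃ i ∈ J, j < i := by
    intro J hJ j
    by_contra hcon
    push Not at hcon
    exact hJ (((hι j).insert j).mono fun i hi => by
      rw [Iio_insert]
      exact hcon i hi)
  have step : ∀ (D : Set (ℕ → Bool)) (n : ℕ), ¬ {j : ι | ∃ x ∈ D, Emb x j n}.Countable →
      ∃ n', ¬ {j : ι | ∃ x ∈ D ∩ {x | Rel x n' n}, Emb x j n'}.Countable := by
    intro D n hD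
    by_contra hcon
    push Not at hcon
    apply huniv
    refine (countable_iUnion hcon).mono fun j _ => ?_
    obtain ⟨i, ⟨x, hxD, g, hg1, hg2⟩, hji⟩ := hun _ hD j
    refine mem_iUnion.2 ⟨g j, x, ⟨hxD, ?_⟩, g, rfl, fun a b hab hb => hg2 a b hab (hb.trans hji.le)⟩
    have := hg2 j i hji le_rfl
    rwa [hg1] at this
  obtain ⟨n₀, hn₀⟩ : ∃ n, ¬ {j : ι | ∃ x ∈ C, Emb x j n}.Countable := by
    by_contra hcon
    push Not at hcon
    apply huniv
    refine (countable_iUnion hcon).mono fun j _ => ?_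
    obtain ⟨x, hx, n, hn⟩ := h j
    exact mem_iUnion.2 ⟨n, x, hx, hn⟩
  choose! nx hnx using step
  let st : ℕ → Set (ℕ → Bool) × ℕ := fun k => Nat.rec (C, n₀)
    (fun _ q => (q.1 ∩ {x | Rel x (nx q.1 q.2) q.2}, nx q.1 q.2)) k
  have hst : ∀ k, ¬ {j : ι | ∃ x ∈ (st k).1, Emb x j (st k).2}.Countable := by
    intro k
    induction k with
    | zero => exact hn₀
    | succ k ih => exact hnx _ _ ih
  have hstC : ∀ k, IsCompact (st k).1 := by
    intro k
    induction k with
    | zero => exact hC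
    | succ k ih => exact ih.inter_right (isClosed_rel _ _)
  have hne : ∀ k, ((st k).1).Nonempty := by
    intro k
    by_contra hcon
    rw [not_nonempty_iff_eq_empty] at hcon
    refine hst k ?_
    rw [hcon]
    simp
  obtain ⟨x, hx⟩ := IsCompact.nonempty_iInter_of_sequence_nonempty_isCompact_isClosed
    (fun k => (st k).1) (fun k => inter_subset_left) hne (hstC 0) (fun k => (hstC k).isClosed)
  rw [mem_iInter] at hx
  refine ⟨x, hx 0, fun hwf => ?_⟩
  exact (wellFounded_iff_isEmpty_descending_chain.1 hwf).false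
    ⟨fun k => (st k).2, fun k => (hx (k + 1)).2⟩

/-- The well-founded relations do not have the property. -/
theorem wf_not_compacts : ¬ UncountableOnCompacts WF := by
  classical
  obtain ⟨ι, _, _, hι, hunc, -⟩ := exists_omega1
  have hg : ∀ i : ι, ∃ g : ι → ℕ, InjOn g (Iio i) := fun i => countable_iff_exists_injOn.1 (hι i)
  choose g hg using hg
  -- a code of the well-order of the elements below `i`
  let x : ι → ℕ → Bool := fun i k => decide (∃ a b, a < b ∧ b < i ∧ g i a = (Nat.unpair k).1 ∧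
    g i b = (Nat.unpair k).2)
  have hx : ∀ i m n, Rel (x i) m n ↔ ∃ a b, a < b ∧ b < i ∧ g i a = m ∧ g i b = n := by
    intro i m n
    simp [Rel, x]
  have hwf : ∀ i, x i ∈ WF := by
    intro i
    have h1 : ∀ b, b < i → Acc (Rel (x i)) (g i b) := by
      intro b
      induction b using WellFoundedLT.induction with
      | ind b ih =>
        intro hb
        refine Acc.intro _ fun m hm => ?_
        obtain ⟨a, b', hab, hb', rfl, h2⟩ := (hx i m _).1 hm
        have h3 : b' = b := hg i hb' hb h2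
        subst h3
        exact ih a hab (hab.trans hb')
    refine ⟨fun n => Acc.intro _ fun m hm => ?_⟩
    obtain ⟨a, b, hab, hb, rfl, -⟩ := (hx i m n).1 hm
    exact h1 a (hab.trans hb)
  have key : ∀ C : Set (ℕ → Bool), IsCompact C → C ⊆ WF → {i | x i ∈ C}.Countable := by
    intro C hC hCW
    by_contra hcon
    obtain ⟨y, hyC, hy⟩ := exists_illfounded hι hunc C hC (by
      intro j
      obtain ⟨i, hi, hji⟩ : ∃ i ∈ {i | x i ∈ C}, j < i := by
        by_contra hcon2
        push Not at hcon2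
        exact hcon (((hι j).insert j).mono fun i hi => by
          rw [Iio_insert]
          exact hcon2 i hi)
      exact ⟨x i, hi, g i j, g i, rfl, fun a b hab hb =>
        (hx i _ _).2 ⟨a, b, hab, hb.trans_lt hji, rfl, rfl⟩⟩)
    exact hy (hCW hyC)
  refine not_compacts_of_family hunc (fun i => (⟨x i, hwf i⟩ : WF)) fun C hC => ?_
  refine (key (Subtype.val '' C) (hC.image continuous_subtype_val) ?_).mono ?_
  · rintro _ ⟨y, -, rfl⟩
    exact y.2
  · intro i hi
    exact ⟨_, hi, rfl⟩

end Pool.Agent.LibOM74
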