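import Mathlib

/-!
Generalised ordered spaces, hereditarily meta-Lindelöf spaces, the bounding number.
-/

open Set Topology Filter
open scoped Cardinal

namespace Pool.Agent.LibOM74

/-- Every uncountable subset of `M` has an uncountable intersection with some compact subset of
`M`. -/
def UncountableOnCompacts (M : Type) [TopologicalSpace M] : Prop :=
  ∀ S : Set M, ¬ S.Countable → ∃ C : Set M, IsCompact C ∧ ¬ (S ∩ C).Countable

/-- `Y` is a generalised ordered space: the open rays of the linear order are open, and every point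
has arbitrarily small open order-convex neighbourhoods. -/
structure IsGO (Y : Type) [LinearOrder Y] [TopologicalSpace Y] : Prop where
  isOpen_Iio : ∀ a : Y, IsOpen (Iio a)
  isOpen_Ioi : ∀ a : Y, IsOpen (Ioi a)
  exists_convex : ∀ (y : Y) (U : Set Y), IsOpen U → y ∈ U →
    ∃ V : Set Y, IsOpen V ∧ y ∈ V ∧ V ⊆ U ∧ V.OrdConnected

/-- `Y` is hereditarily meta-Lindelöf: every family of open sets has a point-countable open
refinement with the same union. -/
def HereditarilyMetaLindelof (Y : Type) [TopologicalSpace Y] : Prop :=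
  ∀ 𝒱 : Set (Set Y), (∀ V ∈ 𝒱, IsOpen V) →
    ∃ 𝒲 : Set (Set Y), (∀ W ∈ 𝒲, IsOpen W ∧ ∃ V ∈ 𝒱, W ⊆ V) ∧ ⋃₀ 𝒲 = ⋃₀ 𝒱 ∧
      ∀ y, {W ∈ 𝒲 | y ∈ W}.Countable

/-- `Y` is tame: it is a continuous image of a closed subspace of a product `Z × K`, where `K` is
compact and `Z` is Lindelöf and a generalised ordered space or hereditarily meta-Lindelöf. -/
def Tame (Y : Type) [TopologicalSpace Y] : Prop :=
  ∃ (Z : Type) (_ : TopologicalSpace Z) (_ : LindelofSpace Z) (K : Type) (_ : TopologicalSpace K)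
    (_ : CompactSpace K) (F : Set (Z × K)) (g : F → Y),
    ((∃ _ : LinearOrder Z, IsGO Z) ∨ HereditarilyMetaLindelof Z) ∧ IsClosed F ∧ Continuous g ∧
    Function.Surjective g

/-- `f n ≤ g n` for all but finitely many `n`. -/
def Dom (f g : ℕ → ℕ) : Prop := ∀ᶠ n in atTop, f n ≤ g n

/-- The bounding number `𝔟`: the least cardinality of a set of functions `ℕ → ℕ` that is not
dominated by a single function. -/
noncomputable def bounding : Cardinal.{0} :=
  sInf {c | ∃ F : Set (ℕ → ℕ), #F = c ∧ ∀ g, ∃ f ∈ F, ¬ Dom f g}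

/-- For every open cover of `M × Y` closed under countable unions and every open `B ⊆ M` there are
countably many sets `E` for each point of `Y` with `B × E` inside a member of the cover, such that
every small neighbourhood of a point is inside one of the sets `E` for each of its points. -/
def Cap (M Y : Type) [TopologicalSpace M] [TopologicalSpace Y] : Prop :=
  ∀ 𝒰 : Set (Set (M × Y)), (∀ U ∈ 𝒰, IsOpen U) → ⋃₀ 𝒰 = univ →
    (∀ 𝒞 ⊆ 𝒰, 𝒞.Countable → ∃ U ∈ 𝒰, ⋃₀ 𝒞 ⊆ U) →
    ∀ B : Set M, IsOpen B → ∃ 𝓔 : Y → Set (Set Y), (∀ y, (𝓔 y).Countable) ∧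
      (∀ y, ∀ E ∈ 𝓔 y, ∃ U ∈ 𝒰, B ×ˢ E ⊆ U) ∧
      ∀ (y : Y) (G : Set Y), IsOpen G → y ∈ G → (∃ U ∈ 𝒰, B ×ˢ G ⊆ U) →
        ∃ G' : Set Y, IsOpen G' ∧ y ∈ G' ∧ ∀ z ∈ G', ∃ E ∈ 𝓔 z, G' ⊆ E

end Pool.Agent.LibOM74
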