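import Pool.Agent.LibOM74.Defs

open Set Topology Filter
open scoped Cardinal

namespace Pool.Agent.LibOM74

/-- A well-ordered uncountable type with countable initial segments. -/
theorem exists_omega1 : ∃ (ι : Type) (_ : LinearOrder ι) (_ : WellFoundedLT ι),
    (∀ i : ι, (Iio i).Countable) ∧ ¬ Countable ι ∧ #ι = Cardinal.aleph 1 := by
  refine ⟨(Cardinal.aleph 1).ord.ToType, inferInstance, inferInstance, ?_, ?_, ?_⟩
  · intro i
    have h : #(Iio i) < Cardinal.aleph 1 := by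
      have h0 := Cardinal.mk_Iio_lt i (by rw [Cardinal.mk_toType, Cardinal.card_ord,
        Ordinal.type_toType])
      rwa [Cardinal.mk_toType, Cardinal.card_ord] at h0
    rw [← Cardinal.le_aleph0_iff_set_countable]
    exact Cardinal.lt_aleph_one_iff.1 h
  · intro hc
    have h := Cardinal.mk_le_aleph0_iff.2 hc
    rw [Cardinal.mk_toType, Cardinal.card_ord] at h
    exact absurd h (not_le.2 Cardinal.aleph0_lt_aleph_one)
  · rw [Cardinal.mk_toType, Cardinal.card_ord]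

/-- A sequence of length `ω₁` that escapes countably many steps. -/
theorem exists_escape {ι : Type} [LinearOrder ι] [WellFoundedLT ι]
    (hι : ∀ i : ι, (Iio i).Countable) {X : Type} (R : X → X → Prop)
    (h : ∀ A : Set X, A.Countable → ∃ x, ∀ a ∈ A, ¬ R a x) :
    ∃ f : ι → X, ∀ i j, i < j → ¬ R (f i) (f j) := by
  classical
  have : Nonempty X := ⟨(h ∅ countable_empty).choose⟩
  choose! g hg using h
  let F : (i : ι) → ((j : ι) → j < i → X) → X := fun i r => g (range fun j : Iio i => r j.1 j.2)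
  let f : ι → X := (wellFounded_lt (α := ι)).fix F
  have hf : ∀ i, f i = g (f '' Iio i) := by
    intro i
    have h1 : f i = F i (fun j _ => f j) := (wellFounded_lt (α := ι)).fix_eq F i
    have h2 : (range fun j : Iio i => f j.1) = f '' Iio i := by
      ext x
      simp
    rw [h1, ← h2]
  refine ⟨f, fun i j hij => ?_⟩
  rw [hf j]
  exact hg _ ((hι j).image f) _ (mem_image_of_mem f hij)

theorem lindelof_prod (M Y : Type) [TopologicalSpace M] [SecondCountableTopology M]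
    [TopologicalSpace Y] [LindelofSpace Y] (hM : UncountableOnCompacts M) (hC : Cap M Y) :
    LindelofSpace (M × Y) := by
  classical
  rw [← isLindelof_univ_iff]
  refine isLindelof_of_countable_subcover ?_
  intro ι₀ V hV hVcov
  by_contra hno
  push Not at hno
  -- the closure under countable unions
  set 𝒰 : Set (Set (M × Y)) := {U | ∃ t : Set ι₀, t.Countable ∧ U = ⋃ i ∈ t, V i} with h𝒰
  have hUo : ∀ U ∈ 𝒰, IsOpen U := by
    rintro U ⟨t, -, rfl⟩
    exact isOpen_biUnion fun i _ => hV i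
  have hcov : ⋃₀ 𝒰 = univ := by
    refine eq_univ_of_forall fun x => ?_
    obtain ⟨i, hi⟩ := mem_iUnion.1 (hVcov (mem_univ x))
    exact ⟨V i, ⟨{i}, countable_singleton i, by simp⟩, hi⟩
  have hdir : ∀ 𝒞 ⊆ 𝒰, 𝒞.Countable → ∃ U ∈ 𝒰, ⋃₀ 𝒞 ⊆ U := by
    intro 𝒞 h1 h2
    have h1' : ∀ C ∈ 𝒞, ∃ t : Set ι₀, t.Countable ∧ C = ⋃ i ∈ t, V i := fun C hC => h1 hC
    choose! t ht1 ht2 using h1'
    refine ⟨⋃ i ∈ (⋃ C ∈ 𝒞, t C), V i, ⟨(⋃ C ∈ 𝒞, t C), h2.biUnion ht1, rfl⟩, ?_⟩
    refine sUnion_subset fun C hC => ?_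
    rw [ht2 C hC]
    exact biUnion_subset_biUnion_left (subset_biUnion_of_mem (u := t) hC)
  have huniv : ∀ U ∈ 𝒰, ∃ x, x ∉ U := by
    rintro U ⟨t, ht, rfl⟩
    have := hno t ht
    rw [not_subset] at this
    obtain ⟨x, -, hx⟩ := this
    exact ⟨x, hx⟩
  choose 𝓔 hE1 hE2 hE3 using fun B : TopologicalSpace.countableBasis M => hC 𝒰 hUo hcov hdir B
    (TopologicalSpace.isOpen_of_mem_countableBasis B.2)
  -- the set captured by a point
  have hcap : ∀ y : Y, ∃ U ∈ 𝒰, ∀ (B : TopologicalSpace.countableBasis M), ∀ E ∈ 𝓔 B y,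
      (B : Set M) ×ˢ E ⊆ U := by
    intro y
    choose! W hW1 hW2 using hE2
    have hc : Countable (TopologicalSpace.countableBasis M) :=
      (TopologicalSpace.countable_countableBasis M).to_subtype
    obtain ⟨U, h1, h2⟩ := hdir (⋃ B : TopologicalSpace.countableBasis M, W B y '' 𝓔 B y) (by
      rintro _ hx
      obtain ⟨B, E, hE, rfl⟩ := mem_iUnion.1 hx
      exact hW1 B y E hE) (countable_iUnion fun B => (hE1 B y).image _)
    refine ⟨U, h1, fun B E hE => (hW2 B y E hE).trans ((subset_sUnion_of_mem ?_).trans h2)⟩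
    exact mem_iUnion.2 ⟨B, E, hE, rfl⟩
  choose W hW1 hW2 using hcap
  obtain ⟨ι, _, _, hι, hunc, -⟩ := exists_omega1
  obtain ⟨f, hf⟩ := exists_escape hι (X := M × Y) (fun a x => x ∈ W a.2) (by
    intro A hA
    obtain ⟨U, h1, h2⟩ := hdir ((fun a : M × Y => W a.2) '' A) (by
      rintro _ ⟨a, -, rfl⟩; exact hW1 _) (hA.image _)
    obtain ⟨x, hx⟩ := huniv U h1
    exact ⟨x, fun a ha hxa => hx (h2 ⟨_, mem_image_of_mem _ ha, hxa⟩)⟩)
  -- a compact set that contains uncountably many first coordinates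
  obtain ⟨C, hCc, hΓ⟩ : ∃ C : Set M, IsCompact C ∧ ¬ {i | (f i).1 ∈ C}.Countable := by
    by_cases hr : (range fun i => (f i).1).Countable
    · by_contra hcon
      push Not at hcon
      apply hunc
      rw [← Set.countable_univ_iff]
      have : (univ : Set ι) = ⋃ m ∈ range fun i => (f i).1, {i | (f i).1 ∈ ({m} : Set M)} := by
        ext i
        simp only [mem_univ, true_iff, mem_iUnion₂, mem_ofPred_eq, mem_singleton_iff]
        exact ⟨_, ⟨i, rfl⟩, rfl⟩
      rw [this]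
      exact hr.biUnion fun m _ => hcon {m} isCompact_singleton
    · obtain ⟨C, h1, h2⟩ := hM _ hr
      refine ⟨C, h1, fun h3 => h2 ?_⟩
      refine (h3.image fun i => (f i).1).mono ?_
      rintro _ ⟨⟨i, rfl⟩, hi⟩
      exact ⟨i, hi, rfl⟩
  -- neighbourhoods of the points of `Y`
  have hnb : ∀ y : Y, ∃ (G : Set Y) (T : Set (TopologicalSpace.countableBasis M)), IsOpen G ∧
      y ∈ G ∧ C ⊆ ⋃ B ∈ T, (B : Set M) ∧ ∀ B ∈ T, ∀ z ∈ G, ∃ E ∈ 𝓔 B z, G ⊆ E := by
    intro y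
    have h1 : ∀ m : M, ∃ (B : TopologicalSpace.countableBasis M) (G : Set Y), m ∈ (B : Set M) ∧
        IsOpen G ∧ y ∈ G ∧ ∀ z ∈ G, ∃ E ∈ 𝓔 B z, G ⊆ E := by
      intro m
      have h2 : (m, y) ∈ ⋃₀ 𝒰 := by rw [hcov]; exact mem_univ _
      obtain ⟨U, hU1, hU2⟩ := h2
      obtain ⟨B₀, G, hB, hG, hmB, hyG, hsub⟩ := isOpen_prod_iff.1 (hUo U hU1) m y hU2
      obtain ⟨B, hB', hmB', hBB⟩ := (TopologicalSpace.isBasis_countableBasis M).exists_subset_of_mem_open
        hmB hB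
      obtain ⟨G', h3, h4, h5⟩ := hE3 ⟨B, hB'⟩ y G hG hyG ⟨U, hU1, (prod_mono_left hBB).trans hsub⟩
      exact ⟨⟨B, hB'⟩, G', hmB', h3, h4, h5⟩
    choose B G hmB hGo hyG hG using h1
    obtain ⟨t, -, htc⟩ := hCc.elim_nhds_subcover (fun m => ((B m : Set M))) (fun m _ =>
      (TopologicalSpace.isOpen_of_mem_countableBasis (B m).2).mem_nhds (hmB m))
    refine ⟨⋂ m ∈ t, G m, B '' t, ?_, ?_, ?_, ?_⟩
    · exact isOpen_biInter_finset fun m _ => hGo m
    · exact mem_iInter₂.2 fun m _ => hyG m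
    · intro m hm
      obtain ⟨n, hn, hmn⟩ := mem_iUnion₂.1 (htc hm)
      exact mem_iUnion₂.2 ⟨B n, mem_image_of_mem B hn, hmn⟩
    · rintro _ ⟨m, hm, rfl⟩ z hz
      obtain ⟨E, hE, hGE⟩ := hG m z (mem_iInter₂.1 hz m hm)
      exact ⟨E, hE, (biInter_subset_of_mem (s := (t : Set M)) hm).trans hGE⟩
  choose G T hGo hyG hCT hGE using hnb
  obtain ⟨Z, hZ, hZc⟩ := LindelofSpace.elim_nhds_subcover G (fun y => (hGo y).mem_nhds (hyG y))
  have hcb : Countable (TopologicalSpace.countableBasis M) :=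
    (TopologicalSpace.countable_countableBasis M).to_subtype
  obtain ⟨y, B, hB, hΓ'⟩ : ∃ (y : Y) (B : TopologicalSpace.countableBasis M), B ∈ T y ∧
      ¬ {i | (f i).1 ∈ (B : Set M) ∧ (f i).2 ∈ G y}.Countable := by
    by_contra hcon
    push Not at hcon
    apply hΓ
    have : {i | (f i).1 ∈ C} ⊆ ⋃ y ∈ Z, ⋃ B ∈ T y, {i | (f i).1 ∈ (B : Set M) ∧ (f i).2 ∈ G y} := by
      intro i hi
      have h1 : (f i).2 ∈ ⋃ y ∈ Z, G y := by rw [hZc]; exact mem_univ _
      obtain ⟨y, hy, hiy⟩ := mem_iUnion₂.1 h1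
      obtain ⟨B, hB, hiB⟩ := mem_iUnion₂.1 (hCT y hi)
      exact mem_iUnion₂.2 ⟨y, hy, mem_iUnion₂.2 ⟨B, hB, hiB, hiy⟩⟩
    refine (hZ.biUnion fun y _ => ?_).mono this
    exact (to_countable (T y)).biUnion fun B hB => hcon y B hB
  have hnt : {i | (f i).1 ∈ (B : Set M) ∧ (f i).2 ∈ G y}.Nontrivial := by
    by_contra hcon
    exact hΓ' (not_nontrivial_iff.1 hcon).countable
  obtain ⟨i, hi, j, hj, hij⟩ := hnt.exists_lt
  obtain ⟨E, hE, hGE'⟩ := hGE y B hB _ hi.2
  exact hf i j hij (hW2 (f i).2 B E hE ⟨hj.1, hGE' hj.2⟩)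

/-- An uncountable family of points that meets every compact set in a countable family. -/
theorem not_compacts_of_family {ι M : Type} [TopologicalSpace M] (hunc : ¬ Countable ι) (x : ι → M)
    (key : ∀ C : Set M, IsCompact C → {i | x i ∈ C}.Countable) : ¬ UncountableOnCompacts M := by
  intro hK
  obtain ⟨C, hC, hSC⟩ := hK (range x) (by
    intro hr
    apply hunc
    rw [← Set.countable_univ_iff]
    have : (univ : Set ι) ⊆ ⋃ y ∈ range x, {i | x i ∈ ({y} : Set M)} := by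
      intro i _
      exact mem_iUnion₂.2 ⟨x i, mem_range_self i, rfl⟩
    exact (hr.biUnion fun y _ => key {y} isCompact_singleton).mono this)
  apply hSC
  refine ((key C hC).image x).mono ?_
  rintro _ ⟨⟨i, rfl⟩, hi⟩
  exact ⟨i, hi, rfl⟩

end Pool.Agent.LibOM74
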