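import Pool.Agent.LibOM74.Ordered
import Pool.Agent.LibOM74.Product

/-!
A separable metrizable space with an uncountable subset that meets all compact sets in countable
sets has a non-normal product with a Lindelöf linearly ordered space.
-/

open Set Topology Filter
open scoped Cardinal

namespace Pool.Agent.LibOM74

theorem cantor_dense_compl : Dense (cantorSetᶜ : Set ℝ) := by
  rw [← interior_eq_empty_iff_dense_compl]
  by_contra hne
  obtain ⟨x, hx⟩ := nonempty_iff_ne_empty.2 hne
  obtain ⟨a, b, hab, hsub⟩ := (mem_nhds_iff_exists_Ioo_subset).1 (isOpen_interior.mem_nhds hx)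
  have h1 : IsTotallyDisconnected (cantorSet : Set ℝ) := by
    have : TotallyDisconnectedSpace cantorSet :=
      cantorSetHomeomorphNatToBool.symm.totallyDisconnectedSpace
    exact totallyDisconnectedSpace_subtype_iff.1 this
  have h2 : (Ioo a b).Subsingleton := h1 _ (hsub.trans interior_subset) isPreconnected_Ioo
  have h3 : (a + x) / 2 ∈ Ioo a b := ⟨by linarith [hab.1], by linarith [hab.1, hab.2]⟩
  have h4 := h2 h3 hab
  linarith [hab.1]

/-- The product is not normal. -/
theorem not_normal {M X : Type} [TopologicalSpace M] [MetricSpace X] [CompactSpace X]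
    (e : M → X) (he : IsEmbedding e) (K : Set ℝ) (hK : IsCompact K) (hKd : Dense Kᶜ) (f : ℝ → X)
    (hf : ContinuousOn f K) (hfs : ∀ m : M, ∃ x ∈ K, f x = e m) (S : Set M) (hS : ¬ S.Countable)
    (hSC : ∀ C : Set M, IsCompact C → (S ∩ C).Countable) :
    ∃ P A : Set ℝ, Dense Pᶜ ∧ A ⊆ P ∧ (∀ D : Set ℝ, IsClosed D → D ⊆ P → (A ∩ D).Countable) ∧
      ¬ NormalSpace (M × OS P A) := by
  classical
  choose a haK hfa using hfs
  have hainj : Function.Injective a := by
    intro m m' h
    apply he.injective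
    rw [← hfa m, ← hfa m', h]
  set P : Set ℝ := {x | x ∈ K ∧ f x ∈ range e} with hP
  set A : Set ℝ := a '' S with hA
  have hAP : A ⊆ P := by
    rintro _ ⟨s, -, rfl⟩
    exact ⟨haK s, s, (hfa s).symm⟩
  have hd : Dense Pᶜ := hKd.mono (compl_subset_compl.2 fun x hx => hx.1)
  have hcomp : ∀ D : Set ℝ, IsClosed D → D ⊆ P → IsCompact (e ⁻¹' (f '' D)) := by
    intro D hD hDP
    have h1 : IsCompact D := hK.of_isClosed_subset hD fun x hx => (hDP hx).1
    have h2 : IsCompact (f '' D) := h1.image_of_continuousOn (hf.mono fun x hx => (hDP hx).1)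
    refine he.isInducing.isCompact_preimage' h2 ?_
    rintro _ ⟨x, hx, rfl⟩
    exact (hDP hx).2
  have hAD : ∀ D : Set ℝ, IsClosed D → D ⊆ P → (A ∩ D).Countable := by
    intro D hD hDP
    refine ((hSC _ (hcomp D hD hDP)).image a).mono ?_
    rintro _ ⟨⟨s, hs, rfl⟩, hsD⟩
    exact ⟨s, ⟨hs, a s, hsD, hfa s⟩, rfl⟩
  refine ⟨P, A, hd, hAP, hAD, fun hN => ?_⟩
  have hcx : Continuous (OS.x : OS P A → ℝ) := OS.continuous_x hd
  -- the two closed sets
  have hF : IsClosed {q : M × OS P A | q.2.x ∉ P} := by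
    have : {q : M × OS P A | q.2.x ∉ P} = (⋃ z ∈ {z : OS P A | z.x ∈ P}, univ ×ˢ {z})ᶜ := by
      ext q
      simp only [mem_ofPred_eq, mem_compl_iff, mem_iUnion, mem_prod, mem_univ, true_and,
        mem_singleton_iff, not_exists]
      exact ⟨fun h z hz h' => h (h' ▸ hz), fun h hq => h q.2 hq rfl⟩
    rw [this]
    exact (isOpen_biUnion fun z hz => isOpen_univ.prod (OS.isOpen_singleton z
      (OS.mem_A z hz))).isClosed_compl
  have hD : IsClosed {q : M × OS P A | q.2.x ∈ P ∧ f q.2.x = e q.1} := by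
    have h1 : IsClosed {q : ℝ × X | q.1 ∈ K ∧ f q.1 = q.2} := by
      have h2 : IsClosed {q : K × X | f q.1 = q.2} :=
        isClosed_eq (by
          have := hf.domRestrict
          exact this.comp continuous_fst) continuous_snd
      have h3 : IsClosedEmbedding (Prod.map (Subtype.val : K → ℝ) (id : X → X)) :=
        hK.isClosed.isClosedEmbedding_subtypeVal.prodMap IsClosedEmbedding.id
      have h4 := h3.isClosedMap _ h2
      convert h4 using 1
      ext ⟨x, y⟩
      constructor
      · rintro ⟨hx, hxy⟩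
        exact ⟨(⟨x, hx⟩, y), hxy, rfl⟩
      · rintro ⟨⟨⟨x', hx'⟩, y'⟩, h5, h6⟩
        simp only [Prod.map_apply, id_eq, Prod.mk.injEq] at h6
        obtain ⟨rfl, rfl⟩ := h6
        exact ⟨hx', h5⟩
    have h2 := h1.preimage (f := fun q : M × OS P A => (q.2.x, e q.1))
      ((hcx.comp continuous_snd).prodMk (he.continuous.comp continuous_fst))
    convert h2 using 1
    ext q
    constructor
    · rintro ⟨h3, h4⟩
      exact ⟨h3.1, h4⟩
    · rintro ⟨h3, h4⟩
      exact ⟨⟨h3, q.1, h4.symm⟩, h4⟩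
  have hdisj : Disjoint {q : M × OS P A | q.2.x ∈ P ∧ f q.2.x = e q.1}
      {q : M × OS P A | q.2.x ∉ P} :=
    Set.disjoint_left.2 fun q h1 h2 => h2 h1.1
  obtain ⟨U, V, hU, hV, hDU, hFV, hUV⟩ := (normal_separation hD hF hdisj : SeparatedNhds _ _)
  -- balls around the points of `S`
  have hball : ∀ s : S, ∃ k : ℕ, ∀ m : M, dist (e m) (e s) < 1 / ((k : ℝ) + 1) →
      (m, OS.ins (P := P) (a s) (mem_image_of_mem a s.2) 0) ∈ U := by
    rintro ⟨s, hs⟩
    set z : OS P A := OS.ins (P := P) (a s) (mem_image_of_mem a hs) 0 with hz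
    have h1 : (s, z) ∈ U := hDU ⟨hAP (mem_image_of_mem a hs), hfa s⟩
    have h2 : {m : M | (m, z) ∈ U} ∈ 𝓝 s :=
      (hU.preimage (continuous_id.prodMk continuous_const)).mem_nhds h1
    rw [he.isInducing.nhds_eq_comap] at h2
    obtain ⟨W, hW, hWU⟩ := h2
    obtain ⟨ε, hε, hball⟩ := Metric.mem_nhds_iff.1 hW
    obtain ⟨k, hk⟩ := exists_nat_one_div_lt hε
    exact ⟨k, fun m hm => hWU (hball (hm.trans hk))⟩
  choose k hk using hball
  obtain ⟨j, hj⟩ : ∃ j, ¬ {s : S | k s = j}.Countable := by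
    by_contra hcon
    push Not at hcon
    apply hS
    have h1 : (univ : Set S).Countable := by
      have : (univ : Set S) = ⋃ j, {s : S | k s = j} := by
        ext s; simp
      rw [this]
      exact countable_iUnion hcon
    exact countable_coe_iff.1 (countable_univ_iff.1 h1)
  set Aj : Set ℝ := (fun s : S => a s) '' {s : S | k s = j} with hAj
  have hAjK : closure Aj ⊆ K := by
    refine closure_minimal ?_ hK.isClosed
    rintro _ ⟨s, -, rfl⟩
    exact haK s
  obtain ⟨x, hx, hxP⟩ : ∃ x ∈ closure Aj, x ∉ P := by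
    by_contra hcon
    push Not at hcon
    apply hj
    have h1 := hSC _ (hcomp (closure Aj) isClosed_closure hcon)
    refine (h1.preimage Subtype.val_injective).mono ?_
    intro s hs
    exact ⟨s.2, a s, subset_closure ⟨s, hs, rfl⟩, hfa s⟩
  have hxK : x ∈ K := hAjK hx
  -- a neighbourhood of `x` on which `f` varies little
  have hj0 : (0 : ℝ) < 1 / ((j : ℝ) + 1) / 2 := by positivity
  obtain ⟨δ, hδ, hδf⟩ := Metric.continuousOn_iff.1 hf x hxK _ hj0
  obtain ⟨_, ⟨s₀, hs₀, rfl⟩, hs₀x⟩ := Metric.mem_closure_iff.1 hx δ hδ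
  rw [dist_comm] at hs₀x
  have h1 : ((s₀ : M), (OS.out x hxP : OS P A)) ∈ V := hFV hxP
  obtain ⟨N, hN1, hN2, hN3⟩ := OS.exists_nhd hd hAP (OS.out x hxP : OS P A) hxP
    (O := {z | ((s₀ : M), z) ∈ V})
    (hV.preimage (continuous_const.prodMk continuous_id)) h1
  obtain ⟨η, hη, hηN⟩ := Metric.isOpen_iff.1 hN1 x hN2
  obtain ⟨_, ⟨s₁, hs₁, rfl⟩, hs₁x⟩ := Metric.mem_closure_iff.1 hx (min δ η) (lt_min hδ hη)
  rw [dist_comm] at hs₁x
  have h2 : ((s₀ : M), OS.ins (P := P) (a s₁) (mem_image_of_mem a s₁.2) 0) ∈ V :=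
    hN3 (hηN (hs₁x.trans_le (min_le_right _ _)))
  have h3 : ((s₀ : M), OS.ins (P := P) (a s₁) (mem_image_of_mem a s₁.2) 0) ∈ U := by
    refine hk s₁ s₀ ?_
    have hs₁' : k s₁ = j := hs₁
    rw [hs₁', ← hfa s₀, ← hfa s₁]
    have h4 := hδf _ (haK s₀) hs₀x
    have h5 := hδf _ (haK s₁) (hs₁x.trans_le (min_le_left _ _))
    calc dist (f (a s₀)) (f (a s₁)) ≤ dist (f (a s₀)) (f x) + dist (f (a s₁)) (f x) :=
          dist_triangle_right _ _ _
      _ < 1 / ((j : ℝ) + 1) / 2 + 1 / ((j : ℝ) + 1) / 2 := add_lt_add h4 h5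
      _ = 1 / ((j : ℝ) + 1) := add_halves _
  exact Set.disjoint_left.1 hUV h3 h2

/-- A separable metrizable space with an uncountable subset that meets all compact sets in countable
sets has a non-normal product with a Lindelöf, hereditarily meta-Lindelöf linearly ordered space. -/
theorem exists_ordered (M : Type) [TopologicalSpace M] [TopologicalSpace.MetrizableSpace M]
    [TopologicalSpace.SeparableSpace M] (hM : ¬ UncountableOnCompacts M) :
    ∃ (Y : Type) (_ : LinearOrder Y) (_ : TopologicalSpace Y) (_ : OrderTopology Y)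
      (_ : LindelofSpace Y), HereditarilyMetaLindelof Y ∧ ¬ NormalSpace (M × Y) := by
  classical
  unfold UncountableOnCompacts at hM
  push Not at hM
  obtain ⟨S, hS, hSC⟩ := hM
  let := TopologicalSpace.metrizableSpaceMetric M
  let := TopologicalSpace.metrizableSpaceMetric (ℕ → unitInterval)
  obtain ⟨e, he⟩ := Metric.PiNatEmbed.exists_embedding_to_hilbert_cube (X := M)
  set f : ℝ → (ℕ → unitInterval) := fun x => if hx : x ∈ cantorSet then
    cantorToHilbert (cantorSetHomeomorphNatToBool ⟨x, hx⟩) else 0 with hf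
  have hfc : ContinuousOn f cantorSet := by
    rw [continuousOn_iff_continuous_domRestrict]
    have : cantorSet.domRestrict f = fun x : cantorSet =>
        cantorToHilbert (cantorSetHomeomorphNatToBool x) := by
      funext x
      simp [hf, Set.domRestrict]
    rw [this]
    exact cantorToHilbert_continuous.comp cantorSetHomeomorphNatToBool.continuous
  have hfs : ∀ m : M, ∃ x ∈ (cantorSet : Set ℝ), f x = e m := by
    intro m
    obtain ⟨t, ht⟩ := cantorToHilbert_surjective (e m)
    refine ⟨cantorSetHomeomorphNatToBool.symm t, Subtype.coe_prop _, ?_⟩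
    simp [hf, ht]
  obtain ⟨P, A, h1, h2, h3, h4⟩ := not_normal e he cantorSet isCompact_cantorSet cantor_dense_compl
    f hfc hfs S hS hSC
  exact ⟨OS P A, inferInstance, inferInstance, inferInstance, OS.lindelof h1 h2 h3,
    OS.hml h1 h2, h4⟩

end Pool.Agent.LibOM74
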