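import Pool.Agent.LibOM74.CapGO
import Pool.Agent.LibOM74.CapHML
import Pool.Agent.LibOM74.Example
import Pool.Agent.LibOM74.Analytic
import Pool.Agent.LibOM74.CoGeneral
import Pool.Agent.LibOM74.Coanalytic

/-!
Assembly.
-/

open Set Topology Filter
open scoped Cardinal

namespace Pool.Agent.LibOM74

/-- The order topology gives a generalised ordered space. -/
theorem isGO_of_orderTopology (Y : Type) [LinearOrder Y] [TopologicalSpace Y] [OrderTopology Y] :
    IsGO Y where
  isOpen_Iio _ := isOpen_Iio
  isOpen_Ioi _ := isOpen_Ioi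
  exists_convex y U hU hy := by
    refine ⟨ordConnectedComponent U y, ?_, ?_, ordConnectedComponent_subset, inferInstance⟩
    · rw [isOpen_iff_mem_nhds]
      intro z hz
      have hzU : z ∈ U := ordConnectedComponent_subset hz
      have h1 : ordConnectedComponent U z ∈ 𝓝 z :=
        ordConnectedComponent_mem_nhds.2 (hU.mem_nhds hzU)
      have h2 : ordConnectedComponent U z = ordConnectedComponent U y :=
        (ordConnectedComponent_eq hz).symm
      rwa [h2] at h1
    · exact self_mem_ordConnectedComponent.2 hy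

/-- σ-compact spaces have the property. -/
theorem compacts_of_sigmaCompact (M : Type) [TopologicalSpace M] [SigmaCompactSpace M] :
    UncountableOnCompacts M := by
  intro S hS
  by_contra hcon
  push Not at hcon
  apply hS
  have : S = ⋃ n, S ∩ compactCovering M n := by
    rw [← inter_iUnion, iUnion_compactCovering, inter_univ]
  rw [this]
  exact countable_iUnion fun n => hcon _ (isCompact_compactCovering M n)

/-- The product of a Lindelöf space with a compact space is Lindelöf. -/
theorem lindelof_prod_compact (L K : Type) [TopologicalSpace L] [TopologicalSpace K]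
    [LindelofSpace L] [CompactSpace K] : LindelofSpace (L × K) := by
  classical
  rw [← isLindelof_univ_iff]
  refine isLindelof_of_countable_subcover ?_
  intro ι U hU hcov
  have h1 : ∀ x : L, ∃ (N : Set L) (t : Finset ι), IsOpen N ∧ x ∈ N ∧
      N ×ˢ (univ : Set K) ⊆ ⋃ i ∈ t, U i := by
    intro x
    have hc : IsCompact (({x} : Set L) ×ˢ (univ : Set K)) := isCompact_singleton.prod isCompact_univ
    obtain ⟨t, ht⟩ := hc.elim_finite_subcover U hU ((subset_univ _).trans hcov)
    have ho : IsOpen (⋃ i ∈ t, U i) := isOpen_biUnion fun i _ => hU i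
    obtain ⟨N, V, hN, -, hxN, hV, hNV⟩ := generalized_tube_lemma isCompact_singleton
      isCompact_univ ho ht
    exact ⟨N, t, hN, hxN rfl, (prod_mono_right hV).trans hNV⟩
  choose N t hN hxN hNt using h1
  obtain ⟨T, hT, hTc⟩ := LindelofSpace.elim_nhds_subcover N fun x => (hN x).mem_nhds (hxN x)
  refine ⟨⋃ x ∈ T, (t x : Set ι), hT.biUnion fun x _ => (t x).countable_toSet, ?_⟩
  rintro ⟨x, k⟩ -
  have h2 : x ∈ ⋃ x ∈ T, N x := by rw [hTc]; exact mem_univ _
  obtain ⟨y, hy, hxy⟩ := mem_iUnion₂.1 h2
  have h3 : ((x, k) : L × K) ∈ ⋃ i ∈ t y, U i := hNt y ⟨hxy, mem_univ k⟩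
  obtain ⟨i, hi, hxi⟩ := mem_iUnion₂.1 h3
  exact mem_iUnion₂.2 ⟨i, mem_iUnion₂.2 ⟨y, hy, hi⟩, hxi⟩

/-- The product with a tame space is Lindelöf. -/
theorem lindelof_prod_tame (M Y : Type) [TopologicalSpace M] [SecondCountableTopology M]
    [TopologicalSpace Y] (hM : UncountableOnCompacts M) (hY : Tame Y) : LindelofSpace (M × Y) := by
  obtain ⟨Z, _, _, K, _, _, F, g, hZ, hF, hg, hgs⟩ := hY
  have h1 : LindelofSpace (M × Z) := by
    rcases hZ with ⟨_, hZ⟩ | hZ
    · exact lindelof_prod M Z hM (cap_of_go M Z hZ)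
    · exact lindelof_prod M Z hM (cap_of_hml M Z hZ)
  have h2 : LindelofSpace ((M × Z) × K) := lindelof_prod_compact _ _
  have h3 : IsClosed {q : (M × Z) × K | (q.1.2, q.2) ∈ F} :=
    hF.preimage (by fun_prop)
  have h4 : LindelofSpace {q : (M × Z) × K // (q.1.2, q.2) ∈ F} :=
    isLindelof_iff_lindelofSpace.1 h3.isLindelof
  let φ : {q : (M × Z) × K // (q.1.2, q.2) ∈ F} → M × Y := fun q =>
    (q.1.1.1, g ⟨(q.1.1.2, q.1.2), q.2⟩)
  refine LindelofSpace.of_continuous_surjective (f := φ) ?_ ?_
  · refine Continuous.prodMk (by fun_prop) (hg.comp ?_)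
    exact Continuous.subtype_mk (by fun_prop) _
  · rintro ⟨m, y⟩
    obtain ⟨⟨⟨z, k⟩, hzk⟩, rfl⟩ := hgs y
    exact ⟨⟨((m, z), k), hzk⟩, rfl⟩

theorem tame_of_lindelof (Y : Type) [TopologicalSpace Y] [LindelofSpace Y]
    (h : (∃ _ : LinearOrder Y, IsGO Y) ∨ HereditarilyMetaLindelof Y) : Tame Y :=
  ⟨Y, inferInstance, inferInstance, Unit, inferInstance, inferInstance, univ,
    fun q => q.1.1, h, isClosed_univ, by fun_prop, fun y => ⟨⟨(y, ()), mem_univ _⟩, rfl⟩⟩

/-- The equivalences for all separable metrizable spaces. -/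
theorem main_metrizable (M : Type) [TopologicalSpace M] [TopologicalSpace.MetrizableSpace M]
    [TopologicalSpace.SeparableSpace M] : List.TFAE [
      UncountableOnCompacts M,
      ∀ (Y : Type) [TopologicalSpace Y], Tame Y → LindelofSpace (M × Y),
      ∀ (Y : Type) [TopologicalSpace Y] [RegularSpace Y], Tame Y → NormalSpace (M × Y),
      ∀ (Y : Type) [LinearOrder Y] [TopologicalSpace Y] [OrderTopology Y] [LindelofSpace Y],
        NormalSpace (M × Y),
      ∀ (Y : Type) [LinearOrder Y] [TopologicalSpace Y] [OrderTopology Y] [LindelofSpace Y],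
        HereditarilyMetaLindelof Y → NormalSpace (M × Y)] := by
  let := TopologicalSpace.metrizableSpaceMetric M
  have : SecondCountableTopology M := UniformSpace.secondCountable_of_separable M
  tfae_have 1 → 2 := fun h Y _ hY => lindelof_prod_tame M Y h hY
  tfae_have 2 → 3 := fun h Y _ _ hY => by
    have := h Y hY
    infer_instance
  tfae_have 3 → 4 := fun h Y _ _ _ _ =>
    h Y (tame_of_lindelof Y (Or.inl ⟨inferInstance, isGO_of_orderTopology Y⟩))
  tfae_have 4 → 5 := fun h Y _ _ _ _ _ => h Y
  tfae_have 5 → 1 := fun h => by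
    by_contra hM
    obtain ⟨Y, _, _, _, _, h1, h2⟩ := exists_ordered M hM
    exact h2 (h Y h1)
  tfae_finish

/-- continuous images of the irrationals -/
theorem main_image (M : Type) [TopologicalSpace M] [TopologicalSpace.MetrizableSpace M]
    (g : (ℕ → ℕ) → M) (hg : Continuous g) (hs : Function.Surjective g) :
    UncountableOnCompacts M ↔ SigmaCompactSpace M ∨ bounding ≠ ℵ₁ := by
  let := TopologicalSpace.metrizableSpaceMetric M
  constructor
  · intro h
    by_contra hcon
    push Not at hcon
    obtain ⟨e, he⟩ := exists_hurewicz g hg hs hcon.1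
    exact not_compacts_of_bounding hcon.2 M e he h
  · rintro (h | h)
    · exact compacts_of_sigmaCompact M
    · exact (compacts_of_bounding h).image g hg hs

/-- Polish spaces -/
theorem main_polish (M : Type) [TopologicalSpace M] [PolishSpace M] :
    UncountableOnCompacts M ↔ SigmaCompactSpace M ∨ bounding ≠ ℵ₁ := by
  rcases isEmpty_or_nonempty M with hM | hM
  · exact ⟨fun _ => Or.inl inferInstance, fun _ => compacts_of_sigmaCompact M⟩
  obtain ⟨g, hg, hs⟩ := PolishSpace.exists_nat_nat_continuous_surjective M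
  exact main_image M g hg hs

/-- analytic sets -/
theorem main_analytic {X : Type} [TopologicalSpace X] [PolishSpace X] (M : Set X)
    (hM : MeasureTheory.AnalyticSet M) :
    UncountableOnCompacts M ↔ IsSigmaCompact M ∨ bounding ≠ ℵ₁ := by
  rw [isSigmaCompact_iff_isSigmaCompact_univ, isSigmaCompact_univ_iff]
  rw [MeasureTheory.AnalyticSet] at hM
  rcases hM with rfl | ⟨g, hg, hgM⟩
  · exact ⟨fun _ => Or.inl inferInstance, fun _ => compacts_of_sigmaCompact _⟩
  refine main_image M (fun z => ⟨g z, hgM ▸ mem_range_self z⟩) (Continuous.subtype_mk hg _) ?_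
  rintro ⟨x, hx⟩
  rw [← hgM] at hx
  obtain ⟨z, rfl⟩ := hx
  exact ⟨z, rfl⟩

/-- coanalytic spaces -/
theorem main_coanalytic {X : Type} [TopologicalSpace X] [PolishSpace X] [MeasurableSpace X]
    [BorelSpace X] (M : Set X) (hM : MeasureTheory.AnalyticSet Mᶜ) :
    UncountableOnCompacts M ↔ IsSigmaCompact M ∨ (MeasurableSet M ∧ bounding ≠ ℵ₁) := by
  constructor
  · intro h
    have hB : MeasurableSet M := by
      by_contra hB
      exact coanalytic_not_compacts M hM hB h
    rcases (main_analytic M hB.analyticSet).1 h with h1 | h1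
    · exact Or.inl h1
    · exact Or.inr ⟨hB, h1⟩
  · rintro (h | ⟨hB, h⟩)
    · have : SigmaCompactSpace M := by
        rwa [← isSigmaCompact_univ_iff, ← isSigmaCompact_iff_isSigmaCompact_univ]
      exact compacts_of_sigmaCompact M
    · exact (main_analytic M hB.analyticSet).2 (Or.inr h)

end Pool.Agent.LibOM74
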