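import Pool.Agent.LibOM74.Defs

/-!
The linearly ordered space `OS P A`: the real line without `P`, with the points of `A ⊆ P` put back,
each of them replaced by a copy of the integers.
-/

open Set Topology Filter
open scoped Cardinal

namespace Pool.Agent.LibOM74

/-- The points `(x, 0)`, `x ∉ P`, and `(x, n)`, `x ∈ A`, `n` an integer. -/
@[ext] structure OS (P A : Set ℝ) where
  x : ℝ
  n : ℤ
  h : (x ∉ P ∧ n = 0) ∨ x ∈ A

namespace OS

variable {P A : Set ℝ}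

/-- the lexicographic order -/
noncomputable instance : LinearOrder (OS P A) :=
  LinearOrder.lift' (fun z : OS P A => toLex (z.x, z.n)) (by
    intro z w h
    have h' := congrArg ofLex h
    exact OS.ext (congrArg Prod.fst h') (congrArg Prod.snd h'))

/-- the order topology -/
noncomputable instance : TopologicalSpace (OS P A) := Preorder.topology _

instance : OrderTopology (OS P A) := ⟨rfl⟩

theorem lt_iff (z w : OS P A) : z < w ↔ z.x < w.x ∨ z.x = w.x ∧ z.n < w.n :=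
  Prod.Lex.toLex_lt_toLex (x := (z.x, z.n)) (y := (w.x, w.n))

theorem mono : Monotone (OS.x : OS P A → ℝ) := by
  intro z w h
  rcases h.eq_or_lt with rfl | h
  · exact le_rfl
  · rcases (lt_iff z w).1 h with h | h
    · exact h.le
    · exact h.1.le

/-- the point `(x, 0)` for `x ∉ P` -/
def out (x : ℝ) (hx : x ∉ P) : OS P A := ⟨x, 0, Or.inl ⟨hx, rfl⟩⟩

/-- the point `(a, n)` for `a ∈ A` -/
def ins (a : ℝ) (ha : a ∈ A) (n : ℤ) : OS P A := ⟨a, n, Or.inr ha⟩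

theorem n_eq_zero (hAP : A ⊆ P) {z : OS P A} (hz : z.x ∉ P) : z.n = 0 := by
  rcases z.h with h | h
  · exact h.2
  · exact absurd (hAP h) hz

theorem mem_A (z : OS P A) (hz : z.x ∈ P) : z.x ∈ A := by
  rcases z.h with h | h
  · exact absurd hz h.1
  · exact h

theorem continuous_x (hd : Dense Pᶜ) : Continuous (OS.x : OS P A → ℝ) := by
  refine mono.continuous_of_denseRange (hd.mono ?_)
  intro x hx
  exact ⟨out x hx, rfl⟩

/-- The points over `A` are isolated. -/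
theorem isOpen_singleton (z : OS P A) (hz : z.x ∈ A) : IsOpen ({z} : Set (OS P A)) := by
  have : ({z} : Set (OS P A)) = Ioo (ins z.x hz (z.n - 1)) (ins z.x hz (z.n + 1)) := by
    ext w
    simp only [mem_singleton_iff, mem_Ioo, lt_iff, ins]
    constructor
    · rintro rfl
      exact ⟨Or.inr ⟨rfl, by omega⟩, Or.inr ⟨rfl, by omega⟩⟩
    · rintro ⟨h1 | h1, h2 | h2⟩
      · exact absurd h1 (not_lt.2 h2.le)
      · exact absurd h1 (not_lt.2 h2.1.le)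
      · exact absurd h2 (not_lt.2 h1.1.le)
      · exact OS.ext h1.1.symm (by omega)
  rw [this]
  exact isOpen_Ioo

/-- Small neighbourhoods of the points over the complement of `P`. -/
theorem exists_nhd (hd : Dense Pᶜ) (hAP : A ⊆ P) (z : OS P A) (hz : z.x ∉ P) {O : Set (OS P A)}
    (hO : IsOpen O) (hzO : z ∈ O) :
    ∃ N : Set ℝ, IsOpen N ∧ z.x ∈ N ∧ OS.x ⁻¹' N ⊆ O := by
  obtain ⟨c, hc, hcz⟩ := hd.exists_lt z.x
  obtain ⟨d, hd', hdz⟩ := hd.exists_gt z.x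
  obtain ⟨l, u, ⟨hl, hu⟩, hlu⟩ := (mem_nhds_iff_exists_Ioo_subset'
    ⟨(out c hc : OS P A), (lt_iff _ _).2 (Or.inl hcz)⟩
    ⟨(out d hd' : OS P A), (lt_iff _ _).2 (Or.inl hdz)⟩).1 (hO.mem_nhds hzO)
  have hl' : l.x < z.x := by
    rcases (lt_iff _ _).1 hl with h | ⟨h1, h2⟩
    · exact h
    · rw [n_eq_zero hAP hz, n_eq_zero hAP (h1 ▸ hz)] at h2
      exact absurd h2 (lt_irrefl _)
  have hu' : z.x < u.x := by
    rcases (lt_iff _ _).1 hu with h | ⟨h1, h2⟩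
    · exact h
    · rw [n_eq_zero hAP hz, n_eq_zero hAP (h1 ▸ hz)] at h2
      exact absurd h2 (lt_irrefl _)
  refine ⟨Ioo l.x u.x, isOpen_Ioo, ⟨hl', hu'⟩, fun w hw => hlu ⟨?_, ?_⟩⟩
  · exact (lt_iff _ _).2 (Or.inl hw.1)
  · exact (lt_iff _ _).2 (Or.inl hw.2)

/-- `OS P A` is Lindelöf if closed sets inside `P` contain only countably many points of `A`. -/
theorem lindelof (hd : Dense Pᶜ) (hAP : A ⊆ P)
    (hA : ∀ D : Set ℝ, IsClosed D → D ⊆ P → (A ∩ D).Countable) : LindelofSpace (OS P A) := by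
  classical
  rw [← isLindelof_univ_iff]
  refine isLindelof_of_countable_subcover ?_
  intro ι U hU hcov
  have hex : ∀ z : OS P A, ∃ i, z ∈ U i := fun z => mem_iUnion.1 (hcov (mem_univ z))
  choose i hi using hex
  have hN : ∀ z : (Pᶜ : Set ℝ), ∃ N : Set ℝ, IsOpen N ∧ (z : ℝ) ∈ N ∧
      (OS.x : OS P A → ℝ) ⁻¹' N ⊆ U (i (out z z.2)) := fun z =>
    exists_nhd hd hAP (out z z.2) z.2 (hU _) (hi _)
  choose N hNo hzN hNU using hN
  have hL : IsLindelof (univ : Set (Pᶜ : Set ℝ)) := HereditarilyLindelofSpace.isLindelof _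
  obtain ⟨T, hT, hTc⟩ := hL.elim_nhds_subcover (fun z => Subtype.val ⁻¹' (N z))
    (fun z _ => ((hNo z).preimage continuous_subtype_val).mem_nhds (hzN z))
  set D : Set ℝ := (⋃ z ∈ T, N z)ᶜ with hD
  have hDc : IsClosed D := (isOpen_biUnion fun z _ => hNo z).isClosed_compl
  have hDP : D ⊆ P := by
    intro x hx
    by_contra hxP
    have h1 : (⟨x, hxP⟩ : (Pᶜ : Set ℝ)) ∈ ⋃ z ∈ T, Subtype.val ⁻¹' (N z) := hTc.2 (mem_univ _)
    obtain ⟨z, hz, hxz⟩ := mem_iUnion₂.1 h1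
    exact hx (mem_iUnion₂.2 ⟨z, hz, hxz⟩)
  have hcount : {z : OS P A | z.x ∈ A ∩ D}.Countable := by
    have h1 : ((A ∩ D) ×ˢ (univ : Set ℤ)).Countable := (hA D hDc hDP).prod countable_univ
    refine (h1.preimage_of_injOn (f := fun z : OS P A => (z.x, z.n)) ?_).mono ?_
    · intro z _ w _ h
      exact OS.ext (congrArg Prod.fst h) (congrArg Prod.snd h)
    · intro z hz
      exact ⟨hz, mem_univ _⟩
  refine ⟨(fun z : (Pᶜ : Set ℝ) => i (out z z.2)) '' T ∪ i '' {z : OS P A | z.x ∈ A ∩ D},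
    (hT.image _).union (hcount.image _), fun z _ => ?_⟩
  by_cases hz : z.x ∈ D
  · refine mem_iUnion₂.2 ⟨i z, Or.inr ⟨z, ⟨mem_A z (hDP hz), hz⟩, rfl⟩, hi z⟩
  · rw [hD, mem_compl_iff, not_not] at hz
    obtain ⟨w, hw, hzw⟩ := mem_iUnion₂.1 hz
    exact mem_iUnion₂.2 ⟨_, Or.inl ⟨w, hw, rfl⟩, hNU w hzw⟩

/-- `OS P A` is hereditarily meta-Lindelöf. -/
theorem hml (hd : Dense Pᶜ) (hAP : A ⊆ P) : HereditarilyMetaLindelof (OS P A) := by
  classical
  intro 𝒱 h𝒱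
  -- neighbourhoods of the points over the complement of `P`
  have hN : ∀ z : {z : OS P A // z.x ∉ P ∧ z ∈ ⋃₀ 𝒱}, ∃ N : Set ℝ, IsOpen N ∧ z.1.x ∈ N ∧
      ∃ V ∈ 𝒱, (OS.x : OS P A → ℝ) ⁻¹' N ⊆ V := by
    rintro ⟨z, hz, V, hV, hzV⟩
    obtain ⟨N, h1, h2, h3⟩ := exists_nhd hd hAP z hz (h𝒱 V hV) hzV
    exact ⟨N, h1, h2, V, hV, h3⟩
  choose N hNo hzN hNV using hN
  obtain ⟨T, hT, hTc⟩ := eq_open_union_countable N hNo
  refine ⟨(fun z => (OS.x : OS P A → ℝ) ⁻¹' (N z)) '' T ∪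
    {W | ∃ z : OS P A, z.x ∈ A ∧ z ∈ ⋃₀ 𝒱 ∧ W = {z}}, ?_, ?_, ?_⟩
  · rintro W (⟨z, -, rfl⟩ | ⟨z, hz, ⟨V, hV, hzV⟩, rfl⟩)
    · obtain ⟨V, hV, h⟩ := hNV z
      exact ⟨(hNo z).preimage (continuous_x hd), V, hV, h⟩
    · exact ⟨isOpen_singleton z hz, V, hV, by simpa using hzV⟩
  · apply Subset.antisymm
    · rintro w ⟨W, ⟨z, -, rfl⟩ | ⟨z, hz, hzV, rfl⟩, hw⟩
      · obtain ⟨V, hV, h⟩ := hNV z
        exact ⟨V, hV, h hw⟩
      · rw [mem_singleton_iff.1 hw]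
        exact hzV
    · intro w hw
      by_cases hwP : w.x ∈ P
      · exact ⟨{w}, Or.inr ⟨w, mem_A w hwP, hw, rfl⟩, rfl⟩
      · have h1 : w.x ∈ ⋃ z ∈ T, N z := by
          rw [hTc]
          exact mem_iUnion.2 ⟨⟨w, hwP, hw⟩, hzN _⟩
        obtain ⟨z, hz, hwz⟩ := mem_iUnion₂.1 h1
        exact ⟨_, Or.inl ⟨z, hz, rfl⟩, hwz⟩
  · intro w
    have : {W ∈ (fun z => (OS.x : OS P A → ℝ) ⁻¹' (N z)) '' T ∪
        {W | ∃ z : OS P A, z.x ∈ A ∧ z ∈ ⋃₀ 𝒱 ∧ W = {z}} | w ∈ W} ⊆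
        (fun z => (OS.x : OS P A → ℝ) ⁻¹' (N z)) '' T ∪ {{w}} := by
      rintro W ⟨h | ⟨z, hz, hzV, rfl⟩, hw⟩
      · exact Or.inl h
      · rw [mem_singleton_iff.1 hw]
        exact Or.inr rfl
    exact ((hT.image _).union (countable_singleton _)).mono this

end OS

end Pool.Agent.LibOM74
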